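import Mathlib

/-!
# Generalized binomial coefficients and the letter operator
-/

set_option autoImplicit false

open Finset

namespace Pool.Agent.Work.MP_02e323_rr

section gbin

variable {K : Type*} [Field K]

/-- The binomial coefficient `r (r - 1) ⋯ (r - m + 1) / m!`. -/
noncomputable def gbin (r : K) (m : ℕ) : K := (∏ i ∈ range m, (r - (i : K))) / (m.factorial : K)

lemma gbin_zero (r : K) : gbin r 0 = 1 := by simp [gbin]

variable [CharZero K]

lemma gbin_succ (r : K) (m : ℕ) : ((m : K) + 1) * gbin r (m + 1) = (r - m) * gbin r m := by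
  have h1 : (m.factorial : K) ≠ 0 := by exact_mod_cast m.factorial_ne_zero
  have h2 : ((m : K) + 1) ≠ 0 := by exact_mod_cast Nat.succ_ne_zero m
  rw [gbin, gbin, prod_range_succ, Nat.factorial_succ]
  push_cast
  field_simp

lemma gbin_zero_succ (m : ℕ) : gbin (0 : K) (m + 1) = 0 := by
  rw [gbin, prod_range_succ']
  simp

/-- Vandermonde's identity. -/
lemma gbin_add (r s : K) (m : ℕ) :
    gbin (r + s) m = ∑ ij ∈ antidiagonal m, gbin r ij.1 * gbin s ij.2 := by
  induction m with
  | zero => simp [gbin_zero]
  | succ m ih =>
    have h2 : ((m : K) + 1) ≠ 0 := by exact_mod_cast Nat.succ_ne_zero m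
    apply mul_left_cancel₀ h2
    rw [gbin_succ, ih]
    have e : ((m : K) + 1) * ∑ ij ∈ antidiagonal (m + 1), gbin r ij.1 * gbin s ij.2 =
        ∑ ij ∈ antidiagonal (m + 1), ((ij.1 : K) * gbin r ij.1 * gbin s ij.2 +
          gbin r ij.1 * ((ij.2 : K) * gbin s ij.2)) := by
      rw [mul_sum]
      apply sum_congr rfl
      rintro ⟨i, j⟩ hij
      rw [HasAntidiagonal.mem_antidiagonal] at hij
      have : (i : K) + j = m + 1 := by exact_mod_cast hij
      simp only
      rw [← this]
      ring
    rw [e, sum_add_distrib]
    rw [Finset.Nat.sum_antidiagonal_succ, Finset.Nat.sum_antidiagonal_succ']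
    simp only [Nat.cast_zero, zero_mul, zero_add, mul_zero, Nat.cast_add, Nat.cast_one]
    rw [mul_sum]
    simp only [gbin_succ]
    rw [← sum_add_distrib]
    apply sum_congr rfl
    rintro ⟨i, j⟩ hij
    rw [HasAntidiagonal.mem_antidiagonal] at hij
    have : (i : K) + j = m := by exact_mod_cast hij
    simp only
    rw [← this]
    ring

end gbin

section st

variable {α K : Type*} [DecidableEq α] [CommRing K]

/-- The letter operator: `st c u g F` is the sum of `g m * F v` over all ways `u = c ^ m v`. -/
def st (c : α) : List α → (ℕ → K) → (List α → K) → K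
  | [], g, F => g 0 * F []
  | a :: u, g, F => g 0 * F (a :: u) + if a = c then st c u (fun m => g (m + 1)) F else 0

lemma st_nil (c : α) (g : ℕ → K) (F : List α → K) : st c [] g F = g 0 * F [] := rfl

lemma st_cons (c a : α) (u : List α) (g : ℕ → K) (F : List α → K) :
    st c (a :: u) g F = g 0 * F (a :: u) + if a = c then st c u (fun m => g (m + 1)) F else 0 :=
  rfl

lemma st_congr (c : α) (F F' : List α → K) : ∀ (u : List α) (g : ℕ → K),
    (∀ v : List α, v.length ≤ u.length → F v = F' v) → st c u g F = st c u g F'
  | [], g, h => by rw [st_nil, st_nil, h [] le_rfl]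
  | a :: u, g, h => by
    rw [st_cons, st_cons, h (a :: u) le_rfl,
      st_congr c F F' u _ (fun v hv => h v (by simp only [List.length_cons]; omega))]

lemma st_zero (c : α) (F : List α → K) : ∀ u : List α, st c u (fun _ => (0 : K)) F = 0
  | [] => by simp [st_nil]
  | a :: u => by simp [st_cons, st_zero c F u]

lemma st_lin (c : α) (F : List α → K) (b : K) : ∀ (u : List α) (g h : ℕ → K),
    st c u (fun m => b * g m + h m) F = b * st c u g F + st c u h F
  | [], g, h => by simp only [st_nil]; ring
  | a :: u, g, h => by
    simp only [st_cons]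
    rw [st_lin c F b u]
    split_ifs <;> ring

/-- Cauchy product. -/
def conv (g h : ℕ → K) (m : ℕ) : K := ∑ ij ∈ antidiagonal m, g ij.1 * h ij.2

lemma conv_succ (g h : ℕ → K) (m : ℕ) :
    conv g h (m + 1) = g 0 * h (m + 1) + conv (fun m => g (m + 1)) h m := by
  rw [conv, Finset.Nat.sum_antidiagonal_succ]
  rfl

lemma st_st (c : α) (F : List α → K) : ∀ (u : List α) (g h : ℕ → K),
    st c u g (fun v => st c v h F) = st c u (conv g h) F
  | [], g, h => by simp [st_nil, conv, mul_assoc]
  | a :: u, g, h => by
    rw [st_cons, st_cons, st_cons]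
    have e0 : conv g h 0 = g 0 * h 0 := by simp [conv]
    rw [e0]
    by_cases hac : a = c
    · simp only [if_pos hac]
      rw [st_st c F u]
      have e1 : (fun m => conv g h (m + 1)) =
          fun m => g 0 * h (m + 1) + conv (fun m => g (m + 1)) h m := by
        funext m; exact conv_succ g h m
      rw [e1, st_lin c F (g 0) u (fun m => h (m + 1))]
      ring
    · simp only [if_neg hac]
      ring

lemma st_one (c : α) (F : List α → K) (g : ℕ → K) (h0 : g 0 = 1) (h1 : ∀ m, g (m + 1) = 0)
    (u : List α) : st c u g F = F u := by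
  cases u with
  | nil => rw [st_nil, h0, one_mul]
  | cons a u =>
    rw [st_cons, h0, one_mul]
    simp only [h1, st_zero, ite_self, add_zero]

/-- Closed form. -/
lemma st_eq_sum (c : α) (F : List α → K) : ∀ (u : List α) (g : ℕ → K),
    st c u g F = ∑ m ∈ range (u.length + 1),
      if u.take m = List.replicate m c then g m * F (u.drop m) else 0
  | [], g => by simp [st_nil]
  | a :: u, g => by
    rw [st_cons, List.length_cons, sum_range_succ', st_eq_sum c F u]
    simp only [List.take_zero, List.replicate_zero, if_true, List.drop_zero, List.take_succ_cons,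
      List.replicate_succ, List.drop_succ_cons, List.cons.injEq]
    rw [add_comm]
    congr 1
    by_cases hac : a = c
    · simp [hac]
    · simp [hac]

end st

section tot

variable {K : Type*} [CommRing K]

/-- The sum over all words of length `i`. -/
def tot : ℕ → (List Bool → K) → K
  | 0, F => F []
  | i + 1, F => tot i (fun u => F (true :: u)) + tot i (fun u => F (false :: u))

lemma tot_zero (F : List Bool → K) : tot 0 F = F [] := rfl

lemma tot_succ (i : ℕ) (F : List Bool → K) :
    tot (i + 1) F = tot i (fun u => F (true :: u)) + tot i (fun u => F (false :: u)) := rfl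

lemma tot_congr : ∀ (i : ℕ) (F F' : List Bool → K), (∀ u : List Bool, u.length = i → F u = F' u) →
    tot i F = tot i F'
  | 0, F, F', h => h [] rfl
  | i + 1, F, F', h => by
    rw [tot_succ, tot_succ]
    rw [tot_congr i _ _ (fun u hu => h (true :: u) (by simp [hu])),
      tot_congr i _ _ (fun u hu => h (false :: u) (by simp [hu]))]

lemma tot_add : ∀ (i : ℕ) (F F' : List Bool → K),
    tot i (fun u => F u + F' u) = tot i F + tot i F'
  | 0, F, F' => rfl
  | i + 1, F, F' => by
    rw [tot_succ, tot_succ, tot_succ, tot_add i, tot_add i]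
    ring

lemma tot_smul (b : K) : ∀ (i : ℕ) (F : List Bool → K),
    tot i (fun u => b * F u) = b * tot i F
  | 0, F => rfl
  | i + 1, F => by
    rw [tot_succ, tot_succ, tot_smul b i, tot_smul b i]
    ring

lemma tot_const_zero : ∀ i : ℕ, tot i (fun _ => (0 : K)) = 0
  | 0 => rfl
  | i + 1 => by rw [tot_succ, tot_const_zero i, add_zero]

lemma tot_st (c : Bool) (F : List Bool → K) : ∀ (i : ℕ) (g : ℕ → K),
    tot i (fun u => st c u g F) = ∑ m ∈ range (i + 1), g m * tot (i - m) F
  | 0, g => by simp [tot_zero, st_nil]
  | i + 1, g => by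
    rw [sum_range_succ', Nat.sub_zero]
    have e : ∀ a : Bool, tot i (fun u => st c (a :: u) g F) =
        g 0 * tot i (fun u => F (a :: u)) +
          if a = c then ∑ m ∈ range (i + 1), g (m + 1) * tot (i - m) F else 0 := by
      intro a
      simp only [st_cons]
      rw [tot_add, tot_smul]
      congr 1
      by_cases hac : a = c
      · simp only [if_pos hac]
        exact tot_st c F i _
      · simp only [if_neg hac]
        exact tot_const_zero i
    rw [tot_succ, e, e]
    simp only [Nat.add_sub_add_right]
    rw [tot_succ]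
    cases c <;> simp <;> ring

end tot

end Pool.Agent.Work.MP_02e323_rr
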