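import Mathlib

/-!
# Trigonometric polynomials and the functional equation of the letter step
-/

set_option autoImplicit false

open Finset

namespace Pool.Agent.Work.MP_02e323_rr

/-- The exponential `x ↦ exp (i j x)`. -/
noncomputable def ex (j : ℤ) : ℝ → ℂ := fun x => Complex.exp (((j : ℝ) * x : ℝ) * Complex.I)

/-- Trigonometric polynomials of degree at most `d`. -/
noncomputable def TP (d : ℕ) : Submodule ℂ (ℝ → ℂ) :=
  Submodule.span ℂ (ex '' {j : ℤ | |j| ≤ (d : ℤ)})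

lemma ex_mem {j : ℤ} {d : ℕ} (h : |j| ≤ (d : ℤ)) : ex j ∈ TP d :=
  Submodule.subset_span ⟨j, h, rfl⟩

lemma TP_mono {d e : ℕ} (h : d ≤ e) : TP d ≤ TP e := by
  apply Submodule.span_mono
  apply Set.image_mono
  intro j hj
  simp only [Set.mem_ofPred_eq] at hj ⊢
  have : (d : ℤ) ≤ e := by exact_mod_cast h
  omega

lemma ex_zero : ex 0 = fun _ => 1 := by
  funext x
  simp [ex]

lemma const_mem (c : ℂ) (d : ℕ) : (fun _ : ℝ => c) ∈ TP d := by
  have h := (TP d).smul_mem c (ex_mem (j := 0) (d := d) (by simp))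
  rw [ex_zero] at h
  convert h using 1
  funext x
  simp

lemma ex_mul (i j : ℤ) : ex i * ex j = ex (i + j) := by
  funext x
  simp only [ex, Pi.mul_apply]
  rw [← Complex.exp_add]
  congr 1
  push_cast
  ring

lemma TP_mul {d e : ℕ} {f g : ℝ → ℂ} (hf : f ∈ TP d) (hg : g ∈ TP e) :
    (fun x => f x * g x) ∈ TP (d + e) := by
  have h : f * g ∈ TP d * TP e := Submodule.mul_mem_mul hf hg
  rw [TP, TP, Submodule.span_mul_span] at h
  refine Submodule.span_le.mpr ?_ h
  rintro _ ⟨_, ⟨i, hi, rfl⟩, _, ⟨j, hj, rfl⟩, rfl⟩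
  simp only [Set.mem_ofPred_eq] at hi hj
  show ex i * ex j ∈ TP (d + e)
  rw [ex_mul]
  apply ex_mem
  have := abs_add_le i j
  push_cast
  omega

lemma TP_refl {d : ℕ} {f : ℝ → ℂ} (c : ℝ) (hf : f ∈ TP d) : (fun x => f (c - x)) ∈ TP d := by
  induction hf using Submodule.span_induction with
  | mem f hf =>
    obtain ⟨j, hj, rfl⟩ := hf
    have h := (TP d).smul_mem (ex j c) (ex_mem (j := -j) (d := d) (by simpa using hj))
    convert h using 1
    funext x
    simp only [ex, Pi.smul_apply, smul_eq_mul]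
    rw [← Complex.exp_add]
    congr 1
    push_cast
    ring
  | zero => exact (TP d).zero_mem
  | add f g _ _ h1 h2 => exact (TP d).add_mem h1 h2
  | smul a f _ h => exact (TP d).smul_mem a h

lemma TP_neg {d : ℕ} {f : ℝ → ℂ} (hf : f ∈ TP d) : (fun x => f (-x)) ∈ TP d := by
  have := TP_refl 0 hf
  simpa using this

lemma TP_period {d : ℕ} {f : ℝ → ℂ} (hf : f ∈ TP d) : ∀ x, f (x + 2 * Real.pi) = f x := by
  induction hf using Submodule.span_induction with
  | mem f hf =>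
    obtain ⟨j, hj, rfl⟩ := hf
    intro x
    simp only [ex]
    rw [Complex.exp_eq_exp_iff_exists_int]
    refine ⟨j, ?_⟩
    push_cast
    ring
  | zero => intro x; rfl
  | add f g _ _ h1 h2 => intro x; simp [h1 x, h2 x]
  | smul a f _ h => intro x; simp [h x]

lemma cos_mem : (fun x : ℝ => ((Real.cos x : ℝ) : ℂ)) ∈ TP 1 := by
  have h := (TP 1).smul_mem (1 / 2 : ℂ)
    ((TP 1).add_mem (ex_mem (j := 1) (d := 1) (by simp)) (ex_mem (j := -1) (d := 1) (by simp)))
  convert h using 1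
  funext x
  simp only [ex, Pi.smul_apply, Pi.add_apply, smul_eq_mul, Complex.ofReal_cos, Complex.cos]
  push_cast
  ring_nf

/-- The angle of a letter step. -/
lemma angle {T : ℕ} {j : ℤ} {δ : ℝ} (hδ : |δ| = Real.pi / T) (hj : |j| < (T : ℤ)) :
    -1 < Real.cos (j * δ) ∧ (j ≠ 0 → Real.cos (j * δ) < 1) := by
  have hT0 : 0 < (T : ℤ) := lt_of_le_of_lt (abs_nonneg j) hj
  have hT : (0 : ℝ) < T := by exact_mod_cast hT0
  have h1 : |(j : ℝ) * δ| < Real.pi := by
    rw [abs_mul, hδ]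
    have h2 : |(j : ℝ)| < T := by exact_mod_cast hj
    rw [mul_div_assoc', div_lt_iff₀ hT, mul_comm]
    exact mul_lt_mul_of_pos_left h2 Real.pi_pos
  rw [← Real.cos_abs]
  constructor
  · rw [← Real.cos_pi]
    exact Real.cos_lt_cos_of_nonneg_of_le_pi (abs_nonneg _) le_rfl h1
  · intro hj0
    have h3 : 0 < |(j : ℝ) * δ| := by
      rw [abs_mul, hδ]
      have : 0 < |(j : ℝ)| := abs_pos.mpr (by exact_mod_cast hj0)
      have := Real.pi_pos
      positivity
    rw [← Real.cos_zero]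
    exact Real.cos_lt_cos_of_nonneg_of_le_pi le_rfl h1.le h3

lemma re_ex (j : ℤ) (x : ℝ) : (ex j x).re = Real.cos (j * x) := by
  simp only [ex]
  rw [Complex.exp_ofReal_mul_I_re]

lemma ex_sub (j : ℤ) (x y : ℝ) : ex j (x - y) = ex j x * ex j (-y) := by
  simp only [ex]
  rw [← Complex.exp_add]
  congr 1
  push_cast
  ring

lemma solveQ {T : ℕ} {δ : ℝ} (hδ : |δ| = Real.pi / T) {d : ℕ} (hd : d < T) {f : ℝ → ℂ}
    (hf : f ∈ TP d) : ∃ Q ∈ TP d, ∀ x, Q x + Q (x - δ) = f x := by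
  induction hf using Submodule.span_induction with
  | mem f hf =>
    obtain ⟨j, hj, rfl⟩ := hf
    simp only [Set.mem_ofPred_eq] at hj
    have hj' : |j| < (T : ℤ) := by
      have : (d : ℤ) < T := by exact_mod_cast hd
      omega
    have h1 : 1 + ex j (-δ) ≠ 0 := by
      intro h
      have h2 := congrArg Complex.re h
      rw [Complex.add_re, re_ex, Complex.one_re, Complex.zero_re, mul_neg, Real.cos_neg] at h2
      have := (angle hδ hj').1
      linarith
    refine ⟨(1 + ex j (-δ))⁻¹ • ex j, (TP d).smul_mem _ (ex_mem hj), fun x => ?_⟩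
    simp only [Pi.smul_apply, smul_eq_mul]
    rw [ex_sub]
    field_simp
  | zero => exact ⟨0, (TP d).zero_mem, fun x => by simp⟩
  | add f g _ _ h1 h2 =>
    obtain ⟨P, hP, h1⟩ := h1
    obtain ⟨Q, hQ, h2⟩ := h2
    refine ⟨P + Q, (TP d).add_mem hP hQ, fun x => ?_⟩
    simp only [Pi.add_apply]
    rw [← h1 x, ← h2 x]
    ring
  | smul a f _ h =>
    obtain ⟨P, hP, h⟩ := h
    refine ⟨a • P, (TP d).smul_mem a hP, fun x => ?_⟩
    simp only [Pi.smul_apply, smul_eq_mul]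
    rw [← h x]
    ring

lemma solveP {T : ℕ} {δ : ℝ} (hδ : |δ| = Real.pi / T) {d : ℕ} (hd : d < T) {f : ℝ → ℂ}
    (hf : f ∈ TP d) : ∃ P ∈ TP d, ∃ κ : ℂ, ∀ x, P x - P (x - δ) = f x - κ := by
  induction hf using Submodule.span_induction with
  | mem f hf =>
    obtain ⟨j, hj, rfl⟩ := hf
    simp only [Set.mem_ofPred_eq] at hj
    have hj' : |j| < (T : ℤ) := by
      have : (d : ℤ) < T := by exact_mod_cast hd
      omega
    rcases eq_or_ne j 0 with rfl | hj0
    · exact ⟨0, (TP d).zero_mem, 1, fun x => by simp [ex_zero]⟩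
    have h1 : 1 - ex j (-δ) ≠ 0 := by
      intro h
      have h2 := congrArg Complex.re h
      rw [Complex.sub_re, re_ex, Complex.one_re, Complex.zero_re, mul_neg, Real.cos_neg] at h2
      have := (angle hδ hj').2 hj0
      linarith
    refine ⟨(1 - ex j (-δ))⁻¹ • ex j, (TP d).smul_mem _ (ex_mem hj), 0, fun x => ?_⟩
    simp only [Pi.smul_apply, smul_eq_mul]
    rw [ex_sub, sub_zero]
    field_simp
  | zero => exact ⟨0, (TP d).zero_mem, 0, fun x => by simp⟩
  | add f g _ _ h1 h2 =>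
    obtain ⟨P, hP, κ, h1⟩ := h1
    obtain ⟨Q, hQ, μ, h2⟩ := h2
    refine ⟨P + Q, (TP d).add_mem hP hQ, κ + μ, fun x => ?_⟩
    simp only [Pi.add_apply]
    linear_combination h1 x + h2 x
  | smul a f _ h =>
    obtain ⟨P, hP, κ, h⟩ := h
    refine ⟨a • P, (TP d).smul_mem a hP, a * κ, fun x => ?_⟩
    simp only [Pi.smul_apply, smul_eq_mul]
    linear_combination a * h x

/-- The functional equation of one letter step. -/
theorem solve {T : ℕ} {δ : ℝ} (hδ : |δ| = Real.pi / T) {d : ℕ} (hd : d < T) {N : ℝ → ℂ}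
    (hN : N ∈ TP d) (hN' : ∀ x, N (δ - x) = - N x) :
    ∃ g ∈ TP d, (∀ x, g x - g (δ - x) = N x) ∧ (∀ x, g x = g (-δ - x)) ∧ g 0 = 0 := by
  obtain ⟨P, hP, κ, h1⟩ := solveP hδ hd ((TP d).smul_mem (1 / 2 : ℂ) hN)
  obtain ⟨Q, hQ, h2⟩ := solveQ hδ hd ((TP d).smul_mem (1 / 2 : ℂ) hN)
  simp only [Pi.smul_apply, smul_eq_mul] at h1 h2
  -- symmetrized
  obtain ⟨P', hP'⟩ : ∃ P' : ℝ → ℂ, P' = (1 / 2 : ℂ) • (P + fun x => P (-x)) := ⟨_, rfl⟩
  obtain ⟨Q', hQ'⟩ : ∃ Q' : ℝ → ℂ, Q' = (1 / 2 : ℂ) • (Q - fun x => Q (-x)) := ⟨_, rfl⟩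
  have hP'm : P' ∈ TP d := by
    rw [hP']
    exact (TP d).smul_mem _ ((TP d).add_mem hP (TP_neg hP))
  have hQ'm : Q' ∈ TP d := by
    rw [hQ']
    exact (TP d).smul_mem _ ((TP d).sub_mem hQ (TP_neg hQ))
  have eP : ∀ x, P' x = 1 / 2 * (P x + P (-x)) := by
    intro x; rw [hP']; rfl
  have eQ : ∀ x, Q' x = 1 / 2 * (Q x - Q (-x)) := by
    intro x; rw [hQ']; rfl
  have hPe : ∀ x, P' (-x) = P' x := by
    intro x; rw [eP, eP, neg_neg]; ring
  have hQo : ∀ x, Q' (-x) = - Q' x := by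
    intro x; rw [eQ, eQ, neg_neg]; ring
  have k1 : ∀ x, 2 * (P' x - P' (x - δ)) = N x := by
    intro x
    have a1 := h1 x
    have a2 := h1 (δ - x)
    rw [hN' x, show δ - x - δ = -x by ring] at a2
    rw [eP, eP, neg_sub]
    linear_combination a1 - a2
  have k2 : ∀ x, 2 * (Q' x + Q' (x - δ)) = N x := by
    intro x
    have a1 := h2 x
    have a2 := h2 (δ - x)
    rw [hN' x, show δ - x - δ = -x by ring] at a2
    rw [eQ, eQ, neg_sub]
    linear_combination a1 - a2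
  refine ⟨fun x => P' x + Q' x - (P' 0 + Q' 0), ?_, ?_, ?_, ?_⟩
  · exact (TP d).sub_mem ((TP d).add_mem hP'm hQ'm) (const_mem _ d)
  · intro x
    have b1 := k1 x
    have b2 := k2 x
    have c1 := hPe (x - δ)
    have c2 := hQo (x - δ)
    rw [neg_sub] at c1 c2
    simp only
    rw [c1, c2]
    linear_combination (b1 + b2) / 2
  · intro x
    have b1 := k1 (x + δ)
    have b2 := k2 (x + δ)
    rw [add_sub_cancel_right] at b1 b2
    have c1 := hPe (x + δ)
    have c2 := hQo (x + δ)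
    rw [show -(x + δ) = -δ - x by ring] at c1 c2
    simp only
    rw [c1, c2]
    linear_combination (b2 - b1) / 2
  · simp

end Pool.Agent.Work.MP_02e323_rr
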