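import Mathlib
import Pool.Agent.Work.MP_02e323_rr.TP
import Pool.Agent.Work.MP_02e323_rr.Op

/-!
# The noncommutative Chebyshev family
-/

set_option autoImplicit false

open Finset

namespace Pool.Agent.Work.MP_02e323_rr

lemma gbin_mem {s : ℝ → ℂ} (hs : s ∈ TP 1) (m : ℕ) : (fun x => gbin (s x) m) ∈ TP m := by
  have h : ∀ m : ℕ, (fun x => ∏ i ∈ range m, (s x - (i : ℂ))) ∈ TP m := by
    intro m
    induction m with
    | zero => simpa using const_mem 1 0
    | succ m ih =>
      simp only [prod_range_succ]
      exact TP_mul ih ((TP 1).sub_mem hs (const_mem (m : ℂ) 1))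
  have h2 := (TP m).smul_mem ((m.factorial : ℂ)⁻¹) (h m)
  convert h2 using 1
  funext x
  simp only [gbin, Pi.smul_apply, smul_eq_mul]
  rw [div_eq_inv_mul]

lemma st_mem (c : Bool) (F : List Bool → ℝ → ℂ) : ∀ (u : List Bool) (g : ℕ → ℝ → ℂ) (k : ℕ),
    (∀ m, g m ∈ TP (m + k)) → (∀ v : List Bool, v.length ≤ u.length → F v ∈ TP v.length) →
    (fun x => st c u (fun m => g m x) (fun v => F v x)) ∈ TP (u.length + k)
  | [], g, k, hg, hF => by
    simp only [st_nil]
    have := TP_mul (hg 0) (hF [] le_rfl)
    exact TP_mono (by simp) this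
  | a :: u, g, k, hg, hF => by
    simp only [st_cons]
    apply (TP _).add_mem
    · have := TP_mul (hg 0) (hF (a :: u) le_rfl)
      exact TP_mono (by simp; omega) this
    · by_cases hac : a = c
      · simp only [if_pos hac]
        have := st_mem c F u (fun m => g (m + 1)) (k + 1) (fun m => by
          have := hg (m + 1)
          rwa [show m + (k + 1) = m + 1 + k by ring]) (fun v hv => hF v (by
            simp only [List.length_cons]; omega))
        exact TP_mono (by simp only [List.length_cons]; omega) this
      · simp only [if_neg hac]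
        exact (TP _).zero_mem

/-- The shift of a letter. -/
noncomputable def dl (δ : ℝ) (c : Bool) : ℝ := if c then δ else -δ

lemma dl_neg (δ : ℝ) {a c : Bool} (h : a ≠ c) : dl δ c = - dl δ a := by
  cases a <;> cases c <;> simp_all [dl]

lemma conv_gbin (r s : ℂ) : conv (gbin r) (gbin s) = gbin (r + s) := by
  funext m
  rw [conv, gbin_add]

/-- Antisymmetry of the inhomogeneity. -/
lemma anti (a : Bool) (n : ℕ) (u : List Bool) (hu : u.length = n) (s : ℂ)
    (F F' : List Bool → ℂ)
    (h1 : ∀ v : List Bool, v.length ≤ n → F v = st a v (gbin s) F') :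
    st a u (fun m => gbin s (m + 1)) F' + st a u (fun m => gbin (-s) (m + 1)) F = 0 := by
  -- make `F'` vanish on longer words
  obtain ⟨H, hH⟩ : ∃ H : List Bool → ℂ, H = fun v => if v.length ≤ n then F' v else 0 := ⟨_, rfl⟩
  have hH1 : ∀ v : List Bool, v.length ≤ n → H v = F' v := by
    intro v hv; rw [hH]; simp [hv]
  have hH2 : H (a :: u) = 0 := by
    rw [hH]; simp [hu]
  have e1 : st a u (fun m => gbin s (m + 1)) F' = st a u (fun m => gbin s (m + 1)) H :=
    st_congr a _ _ u _ (fun v hv => (hH1 v (by omega)).symm)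
  have e2 : st a (a :: u) (gbin s) H = st a u (fun m => gbin s (m + 1)) H := by
    rw [st_cons, hH2, mul_zero, zero_add, if_pos rfl]
  have e3 : st a u (fun m => gbin (-s) (m + 1)) F =
      st a u (fun m => gbin (-s) (m + 1)) (fun v => st a v (gbin s) H) := by
    apply st_congr
    intro v hv
    rw [h1 v (by omega)]
    exact st_congr a _ _ v _ (fun v' hv' => (hH1 v' (by omega)).symm)
  have e4 : st a (a :: u) (gbin (-s)) (fun v => st a v (gbin s) H) = 0 := by
    rw [st_st, conv_gbin, neg_add_cancel, st_one _ _ _ (gbin_zero _) gbin_zero_succ, hH2]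
  rw [st_cons, if_pos rfl, gbin_zero, one_mul, e2] at e4
  rw [e1, e3]
  exact e4

/-- One step of the construction. -/
lemma gam_step {T : ℕ} {δ : ℝ} (hδ : |δ| = Real.pi / T) (x : Bool → ℝ → ℂ)
    (hx : ∀ c, x c ∈ TP 1) (z : ℝ) (n : ℕ)
    (hn : n + 1 < T) (G : List Bool → ℝ → ℂ)
    (hG : ∀ u : List Bool, u.length ≤ n → G u ∈ TP u.length ∧
      ∀ (c : Bool) (y : ℝ), G u y =
        st c u (gbin (x c y - x c (dl δ c - y))) (fun v => G v (dl δ c - y)))
    (a : Bool) (u : List Bool) (hu : u.length = n) :
    ∃ γ : ℝ → ℂ, γ ∈ TP (n + 1) ∧ γ z = 0 ∧ ∀ (c : Bool) (y : ℝ), γ y = γ (dl δ c - y) +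
      if a = c then st c u (fun m => gbin (x c y - x c (dl δ c - y)) (m + 1))
        (fun v => G v (dl δ c - y)) else 0 := by
  obtain ⟨N, hN⟩ : ∃ N : ℝ → ℂ, N = fun y => st a u
    (fun m => gbin (x a y - x a (dl δ a - y)) (m + 1)) (fun v => G v (dl δ a - y)) := ⟨_, rfl⟩
  have hNm : N ∈ TP (n + 1) := by
    rw [hN, ← hu]
    refine st_mem a (fun v y => G v (dl δ a - y)) u
      (fun m y => gbin (x a y - x a (dl δ a - y)) (m + 1)) 1 ?_ ?_
    · intro m
      exact gbin_mem ((TP 1).sub_mem (hx a) (TP_refl _ (hx a))) (m + 1)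
    · intro v hv
      exact TP_refl _ (hG v (by omega)).1
  have hNa : ∀ y, N (dl δ a - y) = - N y := by
    intro y
    have h := anti a n u hu (x a y - x a (dl δ a - y)) (fun v => G v y)
      (fun v => G v (dl δ a - y)) (fun v hv => (hG v hv).2 a y)
    rw [hN]
    simp only [sub_sub_cancel]
    rw [neg_sub] at h
    exact eq_neg_of_add_eq_zero_right h
  have hδ' : |dl δ a| = Real.pi / T := by
    rw [← hδ]
    cases a <;> simp [dl]
  obtain ⟨γ, h1, h2, h3, h4⟩ := solve hδ' hn hNm hNa
  refine ⟨fun y => γ y - γ z, (TP (n + 1)).sub_mem h1 (const_mem _ _), by simp, ?_⟩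
  intro c y
  by_cases hac : a = c
  · subst hac
    rw [if_pos rfl]
    have := h2 y
    rw [hN] at this
    linear_combination this
  · rw [if_neg hac, add_zero, dl_neg δ hac]
    have := h3 y
    linear_combination this

/-- **The noncommutative Chebyshev family.** -/
theorem exists_gam {T : ℕ} {δ : ℝ} (hδ : |δ| = Real.pi / T) (x : Bool → ℝ → ℂ)
    (hx : ∀ c, x c ∈ TP 1) (z : ℝ)
    (n : ℕ) (hn : n < T) : ∃ G : List Bool → ℝ → ℂ, (G [] = fun _ => 1) ∧
      (∀ u, u ≠ [] → G u z = 0) ∧
      ∀ u : List Bool, u.length ≤ n → G u ∈ TP u.length ∧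
        ∀ (c : Bool) (y : ℝ), G u y =
          st c u (gbin (x c y - x c (dl δ c - y))) (fun v => G v (dl δ c - y)) := by
  induction n with
  | zero =>
    refine ⟨fun u => match u with | [] => fun _ => 1 | _ :: _ => fun _ => 0, rfl, ?_, ?_⟩
    · intro u hu
      cases u with
      | nil => exact absurd rfl hu
      | cons a u => rfl
    · intro u hu
      have : u = [] := List.length_eq_zero_iff.mp (by omega)
      subst this
      refine ⟨const_mem 1 0, fun c y => ?_⟩
      rw [st_nil, gbin_zero, one_mul]
  | succ n ih =>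
    obtain ⟨G, hG0, hG1, hG2⟩ := ih (by omega)
    have key := gam_step hδ x hx z n hn G hG2
    choose! γ k1 k2 k3 using key
    obtain ⟨G', e0, e1⟩ : ∃ G' : List Bool → ℝ → ℂ, (G' [] = fun _ => 1) ∧
        ∀ a u, G' (a :: u) = if u.length = n then γ a u else G (a :: u) :=
      ⟨fun u => match u with
        | [] => fun _ => 1
        | a :: u => if u.length = n then γ a u else G (a :: u), rfl, fun _ _ => rfl⟩
    have e2 : ∀ u : List Bool, u.length ≤ n → G' u = G u := by
      intro u hu
      cases u with
      | nil => rw [e0, hG0]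
      | cons a u =>
        rw [e1, if_neg]
        simp only [List.length_cons] at hu
        omega
    refine ⟨G', e0, ?_, ?_⟩
    · intro u hu
      cases u with
      | nil => exact absurd rfl hu
      | cons a u =>
        rw [e1]
        split_ifs with h
        · exact k2 a u h
        · exact hG1 _ (by simp)
    · intro u hu
      rcases Nat.lt_or_ge n u.length with h | h
      · cases u with
        | nil => simp at h
        | cons a u =>
          have hl : u.length = n := by
            simp only [List.length_cons] at hu h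
            omega
          rw [List.length_cons, hl, e1, if_pos hl]
          refine ⟨k1 a u hl, fun c y => ?_⟩
          rw [st_cons, gbin_zero, one_mul, e1, if_pos hl]
          have := k3 a u hl c y
          rw [this]
          congr 1
          by_cases hac : a = c
          · simp only [if_pos hac]
            apply st_congr
            intro v hv
            rw [e2 v (by omega)]
          · simp only [if_neg hac]
      · rw [e2 u h]
        refine ⟨(hG2 u h).1, fun c y => ?_⟩
        rw [(hG2 u h).2 c y]
        apply st_congr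
        intro v hv
        rw [e2 v (by omega)]

end Pool.Agent.Work.MP_02e323_rr
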