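import Mathlib
import Pool.Agent.Work.MP_02e323_rr.Gam

/-!
# Words with real runs; the Chebyshev words
-/

set_option autoImplicit false

open Finset

namespace Pool.Agent.Work.MP_02e323_rr

/-- Subword counts of a word with real runs, in the order of reading. -/
noncomputable def rocc {α : Type*} [DecidableEq α] : List (α × ℝ) → List α → ℝ
  | [], u => if u = [] then 1 else 0
  | (a, r) :: V, u => st a u (gbin r) (rocc V)

lemma rocc_nil {α : Type*} [DecidableEq α] (u : List α) :
    rocc ([] : List (α × ℝ)) u = if u = [] then 1 else 0 := rfl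

lemma rocc_cons {α : Type*} [DecidableEq α] (a : α) (r : ℝ) (V : List (α × ℝ)) (u : List α) :
    rocc ((a, r) :: V) u = st a u (gbin r) (rocc V) := rfl

lemma rocc_empty {α : Type*} [DecidableEq α] : ∀ V : List (α × ℝ), rocc V [] = 1
  | [] => by simp [rocc_nil]
  | (a, r) :: V => by rw [rocc_cons, st_nil, gbin_zero, one_mul, rocc_empty V]

lemma st_cast {α : Type*} [DecidableEq α] (c : α) (F : List α → ℝ) : ∀ (u : List α) (g : ℕ → ℝ),
    ((st c u g F : ℝ) : ℂ) = st c u (fun m => (g m : ℂ)) (fun v => (F v : ℂ))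
  | [], g => by simp [st_nil]
  | a :: u, g => by
    rw [st_cons, st_cons, Complex.ofReal_add, Complex.ofReal_mul]
    congr 1
    by_cases h : a = c
    · rw [if_pos h, if_pos h, st_cast c F u]
    · rw [if_neg h, if_neg h, Complex.ofReal_zero]

lemma gbin_cast (r : ℝ) (m : ℕ) : ((gbin r m : ℝ) : ℂ) = gbin (r : ℂ) m := by
  simp only [gbin]
  push_cast
  rfl

/-- The extremal length, with `T = t + 1`. -/
noncomputable def RT (T : ℕ) : ℝ := 1 / Real.sin (Real.pi / (2 * T)) ^ 2

/-- The jumps. -/
noncomputable def xs (T k : ℕ) : ℝ := -(RT T / 2) * Real.cos (k * (Real.pi / T))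

/-- The word with `k` runs of the lengths `xs k - xs (k - 1), …, xs 1 - xs 0`, starting with the
letter `s`. -/
noncomputable def cw (T : ℕ) : ℕ → Bool → List (Bool × ℝ)
  | 0, _ => []
  | k + 1, s => (s, xs T (k + 1) - xs T k) :: cw T k (!s)

lemma cw_zero (T : ℕ) (s : Bool) : cw T 0 s = [] := rfl

lemma cw_succ (T k : ℕ) (s : Bool) :
    cw T (k + 1) s = (s, xs T (k + 1) - xs T k) :: cw T k (!s) := rfl

/-- **The two Chebyshev words have the same subword counts up to the length `T - 1`.** -/
theorem rocc_cw (T : ℕ) (u : List Bool) (hu : u.length < T) :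
    rocc (cw T T true) u = rocc (cw T T false) u := by
  have hT : (0 : ℝ) < T := by
    have : 0 < T := by omega
    exact_mod_cast this
  have hδ : |Real.pi / T| = Real.pi / T := abs_of_pos (div_pos Real.pi_pos hT)
  obtain ⟨δ, hδe⟩ : ∃ δ : ℝ, δ = Real.pi / T := ⟨_, rfl⟩
  obtain ⟨x, hxe⟩ : ∃ x : ℝ → ℂ, x = fun y => ((-(RT T / 2) * Real.cos y : ℝ) : ℂ) := ⟨_, rfl⟩
  have hx : x ∈ TP 1 := by
    have := (TP 1).smul_mem (((-(RT T / 2) : ℝ) : ℂ)) cos_mem
    rw [hxe]
    convert this using 1
    funext y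
    simp
  rw [← hδe] at hδ
  have hxo : ∀ y, x (-y) = x y := by
    intro y; rw [hxe]; simp only [Real.cos_neg]
  have hxs : ∀ k : ℕ, ∀ s : Bool, x (dl (k * δ) s) = ((xs T k : ℝ) : ℂ) := by
    intro k s
    have h0 : x (k * δ) = ((xs T k : ℝ) : ℂ) := by rw [hxe, hδe, xs]
    cases s
    · simp only [dl, Bool.false_eq_true, if_false]
      rw [hxo, h0]
    · simpa [dl] using h0
  obtain ⟨G, hG0, hG1, hG2⟩ := exists_gam (by rw [hδ, hδe]) (fun _ => x) (fun _ => hx) 0
    u.length hu
  have key : ∀ (k : ℕ) (s : Bool) (v : List Bool), v.length ≤ u.length →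
      ((rocc (cw T k s) v : ℝ) : ℂ) = G v (dl (k * δ) s) := by
    intro k
    induction k with
    | zero =>
      intro s v _
      rw [cw_zero, rocc_nil]
      have : dl ((0 : ℕ) * δ) s = 0 := by cases s <;> simp [dl]
      rw [this]
      split_ifs with h
      · rw [h, hG0]; simp
      · rw [hG1 v h]; simp
    | succ k ih =>
      intro s v hv
      have hd : dl δ s - dl ((k + 1 : ℕ) * δ) s = dl (k * δ) (!s) := by
        cases s <;> simp [dl] <;> ring
      rw [cw_succ, rocc_cons, st_cast, (hG2 v hv).2 s, hd, hxs, hxs]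
      have e : (fun m => ((gbin (xs T (k + 1) - xs T k) m : ℝ) : ℂ)) =
          gbin (((xs T (k + 1) : ℝ) : ℂ) - ((xs T k : ℝ) : ℂ)) := by
        funext m
        rw [gbin_cast]
        push_cast
        rfl
      rw [e]
      apply st_congr
      intro v' hv'
      exact ih (!s) v' (by omega)
  have h1 := key T true u le_rfl
  have h2 := key T false u le_rfl
  have hTδ : (T : ℝ) * δ = Real.pi := by rw [hδe]; field_simp
  rw [hTδ] at h1 h2
  have h3 := TP_period (hG2 u le_rfl).1 (-Real.pi)
  simp only [dl, Bool.false_eq_true, if_true, if_false] at h1 h2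
  rw [show -Real.pi + 2 * Real.pi = Real.pi by ring] at h3
  rw [h3, ← h2] at h1
  exact_mod_cast h1

end Pool.Agent.Work.MP_02e323_rr
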