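import Mathlib
import Pool.Agent.Work.MP_02e323_rr.Cw

/-!
# Polynomial moments of the positions of a letter from subword counts
-/

set_option autoImplicit false

open Finset

namespace Pool.Agent.Work.MP_02e323_rr

/-- The total length. -/
noncomputable def lenV {α : Type*} (V : List (α × ℝ)) : ℝ := (V.map Prod.snd).sum

lemma lenV_nil {α : Type*} : lenV ([] : List (α × ℝ)) = 0 := by simp [lenV]

lemma lenV_cons {α : Type*} (p : α × ℝ) (V : List (α × ℝ)) : lenV (p :: V) = p.2 + lenV V := by
  simp [lenV]

lemma lenV_nonneg {α : Type*} : ∀ V : List (α × ℝ), (∀ p ∈ V, 0 ≤ p.2) → 0 ≤ lenV V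
  | [], _ => by rw [lenV_nil]
  | p :: V, h => by
    rw [lenV_cons]
    exact add_nonneg (h p (by simp)) (lenV_nonneg V (fun q hq => h q (by simp [hq])))

lemma sum_gbin (r s : ℝ) (i : ℕ) :
    ∑ m ∈ range (i + 1), gbin r m * gbin s (i - m) = gbin (r + s) i := by
  rw [gbin_add, Finset.Nat.sum_antidiagonal_eq_sum_range_succ
    (fun a b => gbin r a * gbin s b) i]

lemma tot_rocc : ∀ (V : List (Bool × ℝ)) (i : ℕ), tot i (rocc V) = gbin (lenV V) i
  | [], 0 => by rw [tot_zero, rocc_nil, gbin_zero]; simp
  | [], i + 1 => by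
    rw [tot_succ, lenV_nil, gbin_zero_succ]
    simp only [rocc_nil, reduceCtorEq, if_false, tot_const_zero, add_zero]
  | (a, r) :: V, i => by
    have e : rocc ((a, r) :: V) = fun u => st a u (gbin r) (rocc V) := by
      funext u; rw [rocc_cons]
    rw [e, tot_st, lenV_cons, ← sum_gbin]
    apply sum_congr rfl
    intro m _
    rw [tot_rocc V]

/-- The sum over the runs with the letter `a` of the increments of `P`. -/
noncomputable def Jr (a : Bool) (P : ℝ → ℝ) : List (Bool × ℝ) → ℝ
  | [] => 0
  | (b, r) :: V => (if b = a then P (r + lenV V) - P (lenV V) else 0) + Jr a P V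

lemma Jr_cons (a b : Bool) (r : ℝ) (P : ℝ → ℝ) (V : List (Bool × ℝ)) :
    Jr a P ((b, r) :: V) = (if b = a then P (r + lenV V) - P (lenV V) else 0) + Jr a P V := rfl

lemma Jr_lin (a : Bool) (P Q : ℝ → ℝ) (c : ℝ) : ∀ V : List (Bool × ℝ),
    Jr a (fun y => P y + c * Q y) V = Jr a P V + c * Jr a Q V
  | [] => by simp [Jr]
  | (b, r) :: V => by
    rw [Jr_cons, Jr_cons, Jr_cons, Jr_lin a P Q c V]
    split_ifs <;> ring

lemma Jr_const (a : Bool) (c : ℝ) : ∀ V : List (Bool × ℝ), Jr a (fun _ => c) V = 0
  | [] => rfl
  | (b, r) :: V => by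
    rw [Jr_cons, Jr_const a c V]
    simp

lemma corner (a : Bool) (i : ℕ) : ∀ V : List (Bool × ℝ),
    tot i (fun u => rocc V (a :: u)) = Jr a (fun y => gbin y (i + 1)) V
  | [] => by
    simp only [rocc_nil, reduceCtorEq, if_false, tot_const_zero]
    rfl
  | (b, r) :: V => by
    have e : (fun u => rocc ((b, r) :: V) (a :: u)) = fun u => rocc V (a :: u) +
        if a = b then st b u (fun m => gbin r (m + 1)) (rocc V) else 0 := by
      funext u
      rw [rocc_cons, st_cons, gbin_zero, one_mul]
    rw [e, tot_add, corner a i V, Jr_cons, add_comm]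
    congr 1
    by_cases hab : a = b
    · subst hab
      simp only [if_true]
      rw [tot_st]
      simp only [tot_rocc]
      rw [gbin_add, Finset.Nat.sum_antidiagonal_succ, gbin_zero, one_mul,
        Finset.Nat.sum_antidiagonal_eq_sum_range_succ
          (fun x y => gbin r (x + 1) * gbin (lenV V) y) i]
      ring
    · rw [if_neg (fun h => hab h.symm)]
      simp only [if_neg hab]
      exact tot_const_zero i

/-- Equal counts up to the length `t` give equal `P`-moments for polynomials `P` of degree at
most `t`. -/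
theorem Jr_eq_of_rocc {t : ℕ} {V W : List (Bool × ℝ)}
    (h : ∀ u : List Bool, u.length ≤ t → rocc V u = rocc W u) (a : Bool) :
    ∀ d : ℕ, d ≤ t → ∀ P : Polynomial ℝ, P.natDegree ≤ d →
      Jr a (fun y => P.eval y) V = Jr a (fun y => P.eval y) W := by
  intro d
  induction d with
  | zero =>
    intro _ P hP
    have hP0 := Polynomial.eq_C_of_natDegree_le_zero hP
    have e : (fun y => P.eval y) = fun _ => P.coeff 0 := by
      funext y
      conv_lhs => rw [hP0]
      simp
    rw [e, Jr_const, Jr_const]
  | succ d ih =>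
    intro hd P hP
    obtain ⟨c, hc⟩ : ∃ c, c = P.coeff (d + 1) := ⟨_, rfl⟩
    obtain ⟨P', hP'⟩ : ∃ P', P' = P - Polynomial.C c * descPochhammer ℝ (d + 1) := ⟨_, rfl⟩
    have hmon : (descPochhammer ℝ (d + 1)).coeff (d + 1) = 1 := by
      have h1 := monic_descPochhammer ℝ (d + 1)
      rw [Polynomial.Monic, Polynomial.leadingCoeff, descPochhammer_natDegree] at h1
      exact h1
    have hdeg : P'.natDegree ≤ d := by
      rw [Polynomial.natDegree_le_iff_coeff_eq_zero]
      intro N hN
      rw [hP', Polynomial.coeff_sub, Polynomial.coeff_C_mul]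
      rcases Nat.lt_or_ge (d + 1) N with h1 | h1
      · rw [Polynomial.coeff_eq_zero_of_natDegree_lt (by omega),
          Polynomial.coeff_eq_zero_of_natDegree_lt (by rw [descPochhammer_natDegree]; omega)]
        ring
      · have : N = d + 1 := by omega
        rw [this, hmon, ← hc]
        ring
    have e1 := ih (by omega) P' hdeg
    have e2 : Jr a (fun y => gbin y (d + 1)) V = Jr a (fun y => gbin y (d + 1)) W := by
      rw [← corner, ← corner]
      apply tot_congr
      intro u hu
      exact h _ (by rw [List.length_cons]; omega)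
    have e3 : (fun y => P.eval y) =
        fun y => P'.eval y + (c * ((d + 1).factorial : ℝ)) * gbin y (d + 1) := by
      funext y
      have hf : ((d + 1).factorial : ℝ) ≠ 0 := by exact_mod_cast (d + 1).factorial_ne_zero
      have h1 : (descPochhammer ℝ (d + 1)).eval y = ((d + 1).factorial : ℝ) * gbin y (d + 1) := by
        rw [descPochhammer_eval_eq_prod_range, gbin]
        field_simp
      rw [hP', Polynomial.eval_sub, Polynomial.eval_mul, Polynomial.eval_C, h1]
      ring
    rw [e3, Jr_lin, Jr_lin, e1, e2]

lemma Jr_len : ∀ V : List (Bool × ℝ),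
    Jr true (fun y => y) V + Jr false (fun y => y) V = lenV V
  | [] => by simp [Jr, lenV_nil]
  | (b, r) :: V => by
    have := Jr_len V
    rw [Jr_cons, Jr_cons, lenV_cons, ← this]
    cases b <;> simp <;> ring

theorem len_eq_of_rocc {t : ℕ} (ht : 1 ≤ t) {V W : List (Bool × ℝ)}
    (h : ∀ u : List Bool, u.length ≤ t → rocc V u = rocc W u) : lenV V = lenV W := by
  have h1 : ∀ a, Jr a (fun y => y) V = Jr a (fun y => y) W := by
    intro a
    have := Jr_eq_of_rocc h a 1 ht Polynomial.X (by simp)
    simpa using this
  rw [← Jr_len, ← Jr_len, h1, h1]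

/-- The indicator of the letter `a` at the distance `y` from the right end. -/
noncomputable def ltr (a : Bool) : List (Bool × ℝ) → ℝ → ℝ
  | [], _ => 0
  | (b, _) :: V, y => if y < lenV V then ltr a V y else if b = a then 1 else 0

lemma ltr_cons (a b : Bool) (r : ℝ) (V : List (Bool × ℝ)) (y : ℝ) :
    ltr a ((b, r) :: V) y = if y < lenV V then ltr a V y else if b = a then 1 else 0 := rfl

lemma ltr_measurable (a : Bool) : ∀ V : List (Bool × ℝ), Measurable (ltr a V)
  | [] => measurable_const
  | (b, r) :: V => by
    have e : ltr a ((b, r) :: V) = fun y => if y < lenV V then ltr a V y else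
        if b = a then 1 else 0 := by
      funext y; rw [ltr_cons]
    rw [e]
    exact Measurable.ite measurableSet_Iio (ltr_measurable a V) measurable_const

lemma ltr_bound (a : Bool) : ∀ (V : List (Bool × ℝ)) (y : ℝ), 0 ≤ ltr a V y ∧ ltr a V y ≤ 1
  | [], y => by simp [ltr]
  | (b, r) :: V, y => by
    rw [ltr_cons]
    have := ltr_bound a V y
    split_ifs <;> simp [this]

lemma bdd_integrable {h q : ℝ → ℝ} (hm : Measurable h) (hb : ∀ y, |h y| ≤ 1)
    (hq : Continuous q) (a b : ℝ) : IntervalIntegrable (fun y => h y * q y) MeasureTheory.volume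
      a b := by
  refine (hq.intervalIntegrable a b).mono_fun ?_ ?_
  · exact (hm.mul hq.measurable).aestronglyMeasurable
  · apply Filter.Eventually.of_forall
    intro y
    simp only [norm_mul, Real.norm_eq_abs]
    calc |h y| * |q y| ≤ 1 * |q y| := mul_le_mul_of_nonneg_right (hb y) (abs_nonneg _)
      _ = |q y| := one_mul _

/-- Integral form of the moments. -/
theorem Jr_eq_integral (a : Bool) (P : Polynomial ℝ) : ∀ V : List (Bool × ℝ),
    (∀ p ∈ V, 0 ≤ p.2) → Jr a (fun y => P.eval y) V =
      ∫ y in (0 : ℝ)..lenV V, ltr a V y * (Polynomial.derivative P).eval y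
  | [], _ => by simp [Jr, lenV_nil]
  | (b, r) :: V, hV => by
    have hV' : ∀ p ∈ V, 0 ≤ p.2 := fun p hp => hV p (by simp [hp])
    have hr : 0 ≤ r := hV (b, r) (by simp)
    have hL := lenV_nonneg V hV'
    have hbd : ∀ W : List (Bool × ℝ), ∀ y, |ltr a W y| ≤ 1 := by
      intro W y
      have := ltr_bound a W y
      rw [abs_of_nonneg this.1]
      exact this.2
    have hc : Continuous fun y => (Polynomial.derivative P).eval y := Polynomial.continuous _
    have hsplit := intervalIntegral.integral_add_adjacent_intervals (a := 0) (b := lenV V)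
      (c := r + lenV V) (μ := MeasureTheory.volume)
      (f := fun y => ltr a ((b, r) :: V) y * (Polynomial.derivative P).eval y)
      (bdd_integrable (ltr_measurable a _) (hbd _) hc _ _)
      (bdd_integrable (ltr_measurable a _) (hbd _) hc _ _)
    rw [Jr_cons, Jr_eq_integral a P V hV', lenV_cons]
    rw [← hsplit, add_comm]
    congr 1
    · apply intervalIntegral.integral_congr_Ioo_of_le hL
      intro y hy
      simp only
      rw [ltr_cons, if_pos hy.2]
    · have e : ∫ y in (lenV V)..(r + lenV V), ltr a ((b, r) :: V) y *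
          (Polynomial.derivative P).eval y = ∫ y in (lenV V)..(r + lenV V),
            (if b = a then 1 else 0) * (Polynomial.derivative P).eval y := by
        apply intervalIntegral.integral_congr_Ioo_of_le (by linarith)
        intro y hy
        simp only
        rw [ltr_cons, if_neg (not_lt.mpr hy.1.le)]
      rw [e]
      by_cases hba : b = a
      · simp only [if_pos hba, one_mul]
        rw [intervalIntegral.integral_eq_sub_of_hasDerivAt (f := fun y => P.eval y)
          (fun y _ => Polynomial.hasDerivAt P y) (hc.intervalIntegrable _ _)]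
      · simp only [if_neg hba, zero_mul, intervalIntegral.integral_zero]

end Pool.Agent.Work.MP_02e323_rr
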