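import Mathlib
import Pool.Agent.Work.MP_02e323_rr.Corner

/-!
# The extremal polynomial
-/

set_option autoImplicit false

open Finset

namespace Pool.Agent.Work.MP_02e323_rr

section basics

variable {T : ℕ} (hT : 2 ≤ T)

include hT

lemma T_pos : (0 : ℝ) < T := by
  have : 0 < T := by omega
  exact_mod_cast this

lemma half_angle : 0 < Real.pi / (2 * T) ∧ Real.pi / (2 * T) < Real.pi := by
  have h := T_pos hT
  have hp := Real.pi_pos
  refine ⟨by positivity, ?_⟩
  rw [div_lt_iff₀ (by positivity)]
  have h2 : (2 : ℝ) ≤ T := by exact_mod_cast hT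
  nlinarith

lemma sin_half_pos : 0 < Real.sin (Real.pi / (2 * T)) :=
  Real.sin_pos_of_pos_of_lt_pi (half_angle hT).1 (half_angle hT).2

lemma RT_pos : 0 < RT T := by
  have := sin_half_pos hT
  rw [RT]
  positivity

lemma RT_mul : RT T / 2 * (1 - Real.cos (Real.pi / T)) = 1 := by
  have h := sin_half_pos hT
  have hT0 := T_pos hT
  have e : Real.cos (Real.pi / T) = 1 - 2 * Real.sin (Real.pi / (2 * T)) ^ 2 := by
    rw [show Real.pi / T = 2 * (Real.pi / (2 * T)) by field_simp, Real.cos_two_mul,
      Real.cos_sq']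
    ring
  rw [e, RT]
  field_simp
  ring

omit hT in
lemma xs_zero : xs T 0 = -(RT T / 2) := by
  simp [xs]

lemma xs_top : xs T T = RT T / 2 := by
  have hT0 := T_pos hT
  rw [xs, show (T : ℝ) * (Real.pi / T) = Real.pi by field_simp, Real.cos_pi]
  ring

lemma xs_pred (t : ℕ) (ht : T = t + 1) : xs T t = RT T / 2 - 1 := by
  have hT0 := T_pos hT
  have e : (t : ℝ) * (Real.pi / T) = Real.pi - Real.pi / T := by
    have : (t : ℝ) = T - 1 := by rw [ht]; push_cast; ring
    rw [this]
    field_simp
  rw [xs, e, Real.cos_pi_sub]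
  have := RT_mul hT
  linarith

lemma xs_lt {k : ℕ} (hk : k + 1 ≤ T) : xs T k < xs T (k + 1) := by
  have hT0 := T_pos hT
  have hp := Real.pi_pos
  have hk' : (k : ℝ) + 1 ≤ T := by exact_mod_cast hk
  have hd : 0 < Real.pi / T := by positivity
  have h := Real.cos_lt_cos_of_nonneg_of_le_pi (x := k * (Real.pi / T))
    (y := ((k + 1 : ℕ) : ℝ) * (Real.pi / T)) (by positivity) (by
      push_cast
      calc ((k : ℝ) + 1) * (Real.pi / T) ≤ T * (Real.pi / T) :=
            mul_le_mul_of_nonneg_right hk' hd.le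
        _ = Real.pi := by field_simp) (by
      push_cast
      nlinarith)
  rw [xs, xs]
  have hR := RT_pos hT
  nlinarith

omit hT in
lemma len_cw : ∀ (k : ℕ) (s : Bool), lenV (cw T k s) = xs T k - xs T 0
  | 0, s => by rw [cw_zero, lenV_nil, sub_self]
  | k + 1, s => by
    rw [cw_succ, lenV_cons, len_cw k]
    ring

lemma len_cw_top (s : Bool) : lenV (cw T T s) = RT T := by
  rw [len_cw, xs_top hT, xs_zero]
  ring

lemma cw_pos : ∀ (k : ℕ) (s : Bool), k ≤ T → ∀ p ∈ cw T k s, 0 < p.2
  | 0, s, _ => by simp [cw_zero]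
  | k + 1, s, hk => by
    rw [cw_succ]
    intro p hp
    rw [List.mem_cons] at hp
    rcases hp with rfl | hp
    · exact sub_pos.mpr (xs_lt hT hk)
    · exact cw_pos k _ (by omega) p hp

/-- The sign function of the two Chebyshev words. -/
lemma sign_cw : ∀ (k : ℕ), k ≤ T → ∀ φ : ℝ, 0 ≤ φ → φ < k * (Real.pi / T) →
    (ltr true (cw T k true) (RT T / 2 * (1 - Real.cos φ)) -
      ltr true (cw T k false) (RT T / 2 * (1 - Real.cos φ))) * Real.sin (T * φ) =
      -(-1) ^ k * |Real.sin (T * φ)|
  | 0, _, φ, h0, h1 => by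
    exfalso
    simp only [Nat.cast_zero, zero_mul] at h1
    linarith
  | k + 1, hk, φ, h0, h1 => by
    have hT0 := T_pos hT
    have hR := RT_pos hT
    have hp := Real.pi_pos
    have hk' : (k : ℝ) + 1 ≤ T := by exact_mod_cast hk
    have hd : 0 < Real.pi / T := by positivity
    have hTd : T * (Real.pi / T) = Real.pi := by field_simp
    have hkd : (k : ℝ) * (Real.pi / T) < Real.pi := by
      nlinarith
    rw [cw_succ, cw_succ, ltr_cons, ltr_cons, len_cw, len_cw]
    push_cast at h1
    rcases lt_or_ge φ (k * (Real.pi / T)) with h2 | h2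
    · have hlt : RT T / 2 * (1 - Real.cos φ) < xs T k - xs T 0 := by
        rw [xs, xs]
        have := Real.cos_lt_cos_of_nonneg_of_le_pi h0 hkd.le h2
        simp only [Nat.cast_zero, zero_mul, Real.cos_zero]
        nlinarith
      rw [if_pos hlt, if_pos hlt]
      have := sign_cw k (by omega) φ h0 h2
      simp only [Bool.not_true, Bool.not_false]
      rw [pow_succ]
      linarith
    · have hge : ¬ RT T / 2 * (1 - Real.cos φ) < xs T k - xs T 0 := by
        rw [xs, xs, not_lt]
        have hφ : φ ≤ Real.pi := by nlinarith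
        have := Real.cos_le_cos_of_nonneg_of_le_pi (by positivity) hφ h2
        simp only [Nat.cast_zero, zero_mul, Real.cos_zero]
        nlinarith
      rw [if_neg hge, if_neg hge]
      have h3 : 0 ≤ Real.sin (T * φ - k * Real.pi) := by
        apply Real.sin_nonneg_of_nonneg_of_le_pi
        · have : (T : ℝ) * (k * (Real.pi / T)) ≤ T * φ := mul_le_mul_of_nonneg_left h2 hT0.le
          have e : (T : ℝ) * (k * (Real.pi / T)) = k * Real.pi := by field_simp
          linarith
        · have : T * φ ≤ T * ((k + 1) * (Real.pi / T)) := mul_le_mul_of_nonneg_left h1.le hT0.le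
          have e : (T : ℝ) * ((k + 1) * (Real.pi / T)) = (k + 1) * Real.pi := by field_simp
          linarith
      rw [Real.sin_sub_nat_mul_pi] at h3
      have h4 : |Real.sin (T * φ)| = (-1) ^ k * Real.sin (T * φ) := by
        rw [← abs_of_nonneg h3, abs_mul, abs_pow, abs_neg, abs_one, one_pow, one_mul]
      rw [h4]
      have h5 : ((-1 : ℝ) ^ k) * (-1) ^ k = 1 := by
        rw [← mul_pow]; simp
      simp only [if_true, Bool.false_eq_true, if_false, sub_zero, one_mul]
      rw [pow_succ]
      linear_combination (-Real.sin (T * φ)) * h5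

end basics

/-- An antiderivative. -/
lemma exists_anti (p : Polynomial ℝ) : ∃ P : Polynomial ℝ, Polynomial.derivative P = p ∧
    P.natDegree ≤ p.natDegree + 1 := by
  refine ⟨∑ i ∈ range (p.natDegree + 1),
    Polynomial.C (p.coeff i / ((i : ℝ) + 1)) * Polynomial.X ^ (i + 1), ?_, ?_⟩
  · conv_rhs => rw [p.as_sum_range_C_mul_X_pow]
    rw [Polynomial.derivative_sum]
    apply sum_congr rfl
    intro i _
    rw [Polynomial.derivative_C_mul_X_pow]
    have : ((i : ℝ) + 1) ≠ 0 := by positivity
    push_cast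
    rw [div_mul_cancel₀ _ this]
  · apply Polynomial.natDegree_sum_le_of_forall_le
    intro i hi
    rw [mem_range] at hi
    refine (Polynomial.natDegree_C_mul_X_pow_le _ _).trans ?_
    omega

/-- **The extremal polynomial.** -/
theorem extremal {t : ℕ} (ht : 1 ≤ t) : ∃ p : Polynomial ℝ, p.natDegree ≤ t - 1 ∧
    ∀ n : ℝ, n < RT (t + 1) →
      ∫ y in (RT (t + 1) - n)..(RT (t + 1) - 1), |p.eval y| <
        ∫ y in (RT (t + 1) - 1)..(RT (t + 1)), p.eval y := by
  obtain ⟨T, hTt⟩ : ∃ T, T = t + 1 := ⟨_, rfl⟩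
  rw [← hTt]
  have hT : 2 ≤ T := by omega
  have hT0 := T_pos hT
  have hR := RT_pos hT
  have hR1 : 1 < RT T := by
    have h1 := RT_mul hT
    have h2 : -1 < Real.cos (Real.pi / T) := by
      rw [← Real.cos_pi]
      apply Real.cos_lt_cos_of_nonneg_of_le_pi (by positivity) le_rfl
      rw [div_lt_iff₀ hT0]
      have : (2 : ℝ) ≤ T := by exact_mod_cast hT
      nlinarith [Real.pi_pos]
    nlinarith
  obtain ⟨κ, hκ⟩ : ∃ κ : ℝ, κ = -Real.cos (Real.pi / T) := ⟨_, rfl⟩
  have hκR : RT T / 2 * (1 + κ) = 1 := by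
    rw [hκ]
    have := RT_mul hT
    linarith
  obtain ⟨U, hU⟩ : ∃ U : Polynomial ℝ, U = Polynomial.Chebyshev.U ℝ (t : ℤ) := ⟨_, rfl⟩
  have hUcos : ∀ θ : ℝ, U.eval (Real.cos θ) * Real.sin θ = Real.sin (T * θ) := by
    intro θ
    rw [hU, Polynomial.Chebyshev.U_real_cos, hTt]
    push_cast
    rfl
  have hroot : U.eval κ = 0 := by
    have h1 := hUcos (Real.pi - Real.pi / T)
    rw [Real.cos_pi_sub, ← hκ, Real.sin_pi_sub,
      show (T : ℝ) * (Real.pi - Real.pi / T) = t * Real.pi by
        field_simp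
        rw [hTt]
        push_cast
        ring, Real.sin_nat_mul_pi] at h1
    have h2 : 0 < Real.sin (Real.pi / T) := by
      apply Real.sin_pos_of_pos_of_lt_pi (by positivity)
      rw [div_lt_iff₀ hT0]
      have : (2 : ℝ) ≤ T := by exact_mod_cast hT
      nlinarith [Real.pi_pos]
    rcases mul_eq_zero.mp h1 with h | h
    · exact h
    · exact absurd h h2.ne'
  obtain ⟨q, hq⟩ := Polynomial.dvd_iff_isRoot.mpr (show U.IsRoot κ from hroot)
  have hUdeg : U.natDegree = t := by
    rw [hU, Polynomial.Chebyshev.natDegree_U_natCast]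
  have hU0 : U ≠ 0 := by
    intro h
    rw [h] at hUdeg
    simp at hUdeg
    omega
  have hq0 : q ≠ 0 := by
    rintro rfl
    apply hU0
    rw [hq, mul_zero]
  have hqdeg : q.natDegree = t - 1 := by
    have h1 := congrArg Polynomial.natDegree hq
    rw [Polynomial.natDegree_mul (Polynomial.X_sub_C_ne_zero κ) hq0, hUdeg,
      Polynomial.natDegree_X_sub_C] at h1
    omega
  have hUq : ∀ c : ℝ, U.eval c = (c - κ) * q.eval c := by
    intro c
    rw [hq]
    simp
  have hq1 : q.eval 1 ≠ 0 := by
    intro h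
    have h1 := hUq 1
    rw [h, mul_zero, hU, Polynomial.Chebyshev.U_eval_one] at h1
    push_cast at h1
    have : (0 : ℝ) ≤ t := by positivity
    linarith
  obtain ⟨p, hp⟩ : ∃ p : Polynomial ℝ, p = Polynomial.C ((-1 : ℝ) ^ T) *
    q.comp (Polynomial.C 1 - Polynomial.C (2 / RT T) * Polynomial.X) := ⟨_, rfl⟩
  have hpe : ∀ y : ℝ, p.eval y = (-1) ^ T * q.eval (1 - 2 / RT T * y) := by
    intro y
    rw [hp]
    simp
  have hpdeg : p.natDegree ≤ t - 1 := by
    rw [hp]
    refine (Polynomial.natDegree_C_mul_le _ _).trans ?_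
    refine Polynomial.natDegree_comp_le.trans ?_
    rw [hqdeg]
    have : (Polynomial.C 1 - Polynomial.C (2 / RT T) * Polynomial.X : Polynomial ℝ).natDegree
        ≤ 1 := by
      compute_degree
    calc (t - 1) * _ ≤ (t - 1) * 1 := Nat.mul_le_mul_left _ this
      _ = t - 1 := mul_one _
  have hsq : ((-1 : ℝ) ^ T) * (-1) ^ T = 1 := by
    rw [← mul_pow]; simp
  have hpabs : ∀ y : ℝ, |p.eval y| = |q.eval (1 - 2 / RT T * y)| := by
    intro y
    rw [hpe, abs_mul, abs_pow, abs_neg, abs_one, one_pow, one_mul]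
  have hp0 : p.eval 0 ≠ 0 := by
    rw [hpe, mul_zero, sub_zero]
    exact mul_ne_zero (pow_ne_zero _ (by norm_num)) hq1
  -- the difference of the two words
  obtain ⟨D, hD⟩ : ∃ D : ℝ → ℝ, D = fun y => ltr true (cw T T true) y -
    ltr true (cw T T false) y := ⟨_, rfl⟩
  have hDm : Measurable D := by
    rw [hD]; exact (ltr_measurable _ _).sub (ltr_measurable _ _)
  have hDb : ∀ y, |D y| ≤ 1 := by
    intro y
    rw [hD]
    have h1 := ltr_bound true (cw T T true) y
    have h2 := ltr_bound true (cw T T false) y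
    rw [abs_le]
    constructor <;> simp only <;> linarith
  have hDtop : ∀ y, RT T - 1 ≤ y → D y = 1 := by
    intro y hy
    have e : ∀ s, cw T T s = (s, xs T (t + 1) - xs T t) :: cw T t (!s) := by
      intro s
      conv_lhs => rw [show cw T T s = cw T (t + 1) s by rw [hTt]]
      rw [cw_succ]
    have hn : ¬ y < RT T / 2 - 1 - -(RT T / 2) := by
      rw [not_lt]
      linarith
    rw [hD]
    simp only
    rw [e, e, ltr_cons, ltr_cons, len_cw, len_cw, xs_pred hT t hTt, xs_zero, if_neg hn,
      if_neg hn]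
    simp
  have hDU : ∀ y, 0 < y → y < RT T → D y * U.eval (1 - 2 / RT T * y) =
      -(-1) ^ T * |U.eval (1 - 2 / RT T * y)| := by
    intro y hy0 hy1
    have hc1 : -1 < 1 - 2 / RT T * y := by
      have : 2 / RT T * y < 2 := by
        rw [div_mul_eq_mul_div, div_lt_iff₀ hR]
        linarith
      linarith
    have hc2 : 1 - 2 / RT T * y < 1 := by
      have : 0 < 2 / RT T * y := by positivity
      linarith
    obtain ⟨φ, hφ⟩ : ∃ φ, φ = Real.arccos (1 - 2 / RT T * y) := ⟨_, rfl⟩
    have hφc : Real.cos φ = 1 - 2 / RT T * y := by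
      rw [hφ, Real.cos_arccos hc1.le hc2.le]
    have hφ0 : 0 < φ := by rw [hφ]; exact Real.arccos_pos.mpr hc2
    have hφ1 : φ < Real.pi := by
      rcases lt_or_eq_of_le (show φ ≤ Real.pi by rw [hφ]; exact Real.arccos_le_pi _) with h | h
      · exact h
      · rw [h, Real.cos_pi] at hφc
        linarith
    have h1 := sign_cw hT T le_rfl φ hφ0.le (by
      rw [show (T : ℝ) * (Real.pi / T) = Real.pi by field_simp]
      exact hφ1)
    have e1 : RT T / 2 * (1 - Real.cos φ) = y := by
      rw [hφc]
      field_simp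
      ring
    rw [e1, ← hUcos, hφc, abs_mul] at h1
    have hs : 0 < Real.sin φ := Real.sin_pos_of_pos_of_lt_pi hφ0 hφ1
    rw [abs_of_pos hs] at h1
    apply mul_right_cancel₀ hs.ne'
    rw [hD]
    simp only
    linarith
  have hlow : ∀ y, 0 < y → y < RT T - 1 → D y * p.eval y = -|p.eval y| := by
    intro y hy0 hy1
    have h1 := hDU y hy0 (by linarith)
    have hc : 0 < 1 - 2 / RT T * y - κ := by
      have e : 1 - κ = 2 / RT T * (RT T - 1) := by
        field_simp
        linarith
      have : 2 / RT T * y < 2 / RT T * (RT T - 1) := mul_lt_mul_of_pos_left hy1 (by positivity)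
      linarith
    rw [hUq, abs_mul, abs_of_pos hc] at h1
    have h2 : D y * q.eval (1 - 2 / RT T * y) = -(-1) ^ T * |q.eval (1 - 2 / RT T * y)| := by
      apply mul_left_cancel₀ hc.ne'
      linarith
    rw [hpabs, hpe]
    linear_combination ((-1) ^ T) * h2 - |q.eval (1 - 2 / RT T * y)| * hsq
  have hint : ∀ f : ℝ → ℝ, Continuous f → ∀ a b : ℝ,
      IntervalIntegrable f MeasureTheory.volume a b := fun f hf a b => hf.intervalIntegrable a b
  have hpc : Continuous fun y => p.eval y := Polynomial.continuous p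
  -- orthogonality
  have horth : ∫ y in (0 : ℝ)..(RT T), D y * p.eval y = 0 := by
    obtain ⟨P, hP1, hP2⟩ := exists_anti p
    have h1 := Jr_eq_of_rocc (t := t) (V := cw T T true) (W := cw T T false)
      (fun u hu => rocc_cw T u (by omega)) true t le_rfl P (by omega)
    rw [Jr_eq_integral true P _ (fun p hp => (cw_pos hT T _ le_rfl p hp).le),
      Jr_eq_integral true P _ (fun p hp => (cw_pos hT T _ le_rfl p hp).le), len_cw_top hT,
      len_cw_top hT, hP1] at h1
    have hb : ∀ (W : List (Bool × ℝ)) (y : ℝ), |ltr true W y| ≤ 1 := by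
      intro W y
      have := ltr_bound true W y
      rw [abs_of_nonneg this.1]
      exact this.2
    have e : ∀ y, D y * p.eval y = ltr true (cw T T true) y * p.eval y -
        ltr true (cw T T false) y * p.eval y := by
      intro y; rw [hD]; simp only; ring
    simp only [e]
    rw [intervalIntegral.integral_sub (bdd_integrable (ltr_measurable _ _) (hb _) hpc _ _)
      (bdd_integrable (ltr_measurable _ _) (hb _) hpc _ _), h1, sub_self]
  have hsplit : (∫ y in (0 : ℝ)..(RT T - 1), D y * p.eval y) +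
      ∫ y in (RT T - 1)..(RT T), D y * p.eval y = 0 := by
    rw [intervalIntegral.integral_add_adjacent_intervals
      (bdd_integrable hDm hDb hpc _ _) (bdd_integrable hDm hDb hpc _ _), horth]
  have e1 : ∫ y in (0 : ℝ)..(RT T - 1), D y * p.eval y =
      -∫ y in (0 : ℝ)..(RT T - 1), |p.eval y| := by
    rw [← intervalIntegral.integral_neg]
    apply intervalIntegral.integral_congr_Ioo_of_le (by linarith)
    intro y hy
    exact hlow y hy.1 hy.2
  have e2 : ∫ y in (RT T - 1)..(RT T), D y * p.eval y = ∫ y in (RT T - 1)..(RT T), p.eval y := by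
    apply intervalIntegral.integral_congr_Ioo_of_le (by linarith)
    intro y hy
    simp only
    rw [hDtop y hy.1.le, one_mul]
  refine ⟨p, hpdeg, ?_⟩
  intro n hn
  have hpos : 0 < ∫ y in (0 : ℝ)..(RT T - n), |p.eval y| := by
    apply intervalIntegral.integral_pos (by linarith) hpc.abs.continuousOn
    · intro y _; exact abs_nonneg _
    · exact ⟨0, ⟨le_rfl, by linarith⟩, abs_pos.mpr hp0⟩
  have hadd := intervalIntegral.integral_add_adjacent_intervals
    (hint _ hpc.abs 0 (RT T - n)) (hint _ hpc.abs (RT T - n) (RT T - 1))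
  rw [e1, e2] at hsplit
  linarith

end Pool.Agent.Work.MP_02e323_rr
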