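import Mathlib
import Pool.Agent.Work.MP_02e323_rr.Ext
import Pool.Agent.Work.MP_02e323_helper29.Occ

/-!
# The lower bound for run words, the dominating polynomial for words, and the comparison of counts
-/

set_option autoImplicit false

open Finset

namespace Pool.Agent.Work.MP_02e323_rr

open Pool.Agent.Work.MP_02e323_helper29 (occ occ_nil occ_cons_nil occ_cons_cons)

/-- **Lower bound for run words.** -/
theorem run_lower {t : ℕ} (ht : 1 ≤ t) {V W : List (Bool × ℝ)} {a b : Bool} {r s : ℝ}
    (hV : ∀ p ∈ (a, r) :: V, 0 ≤ p.2) (hW : ∀ p ∈ (b, s) :: W, 0 ≤ p.2)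
    (hab : a ≠ b) (hr : 1 ≤ r) (hs : 1 ≤ s)
    (h : ∀ u : List Bool, u.length ≤ t → rocc ((a, r) :: V) u = rocc ((b, s) :: W) u) :
    RT (t + 1) ≤ lenV ((a, r) :: V) := by
  by_contra hc
  push Not at hc
  obtain ⟨n, hn⟩ : ∃ n, n = lenV ((a, r) :: V) := ⟨_, rfl⟩
  rw [← hn] at hc
  have hlen := len_eq_of_rocc ht h
  obtain ⟨p, hpd, hp⟩ := extremal ht
  obtain ⟨R, hR⟩ : ∃ R, R = RT (t + 1) := ⟨_, rfl⟩
  rw [← hR] at hp hc
  have hpn := hp n hc
  obtain ⟨q, hq⟩ : ∃ q : Polynomial ℝ, q = p.comp (Polynomial.X + Polynomial.C (R - n)) :=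
    ⟨_, rfl⟩
  have hqe : ∀ y, q.eval y = p.eval (y + (R - n)) := by
    intro y; rw [hq]; simp
  have hqd : q.natDegree ≤ t - 1 := by
    rw [hq, Polynomial.natDegree_comp, Polynomial.natDegree_X_add_C, mul_one]
    exact hpd
  obtain ⟨Q, hQ1, hQ2⟩ := exists_anti q
  have h1 := Jr_eq_of_rocc h a t le_rfl Q (by omega)
  rw [Jr_eq_integral a Q _ hV, Jr_eq_integral a Q _ hW, ← hlen, ← hn, hQ1] at h1
  have hb : ∀ (W : List (Bool × ℝ)) (y : ℝ), |ltr a W y| ≤ 1 := by
    intro W y
    have := ltr_bound a W y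
    rw [abs_of_nonneg this.1]
    exact this.2
  have hqc : Continuous fun y => q.eval y := Polynomial.continuous q
  obtain ⟨D, hD⟩ : ∃ D : ℝ → ℝ, D = fun y => ltr a ((a, r) :: V) y - ltr a ((b, s) :: W) y :=
    ⟨_, rfl⟩
  have hDm : Measurable D := by
    rw [hD]; exact (ltr_measurable _ _).sub (ltr_measurable _ _)
  have hDb : ∀ y, |D y| ≤ 1 := by
    intro y
    rw [hD]
    have h1 := ltr_bound a ((a, r) :: V) y
    have h2 := ltr_bound a ((b, s) :: W) y
    rw [abs_le]
    constructor <;> simp only <;> linarith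
  have horth : ∫ y in (0 : ℝ)..n, D y * q.eval y = 0 := by
    have e : ∀ y, D y * q.eval y = ltr a ((a, r) :: V) y * q.eval y -
        ltr a ((b, s) :: W) y * q.eval y := by
      intro y; rw [hD]; simp only; ring
    simp only [e]
    rw [intervalIntegral.integral_sub (bdd_integrable (ltr_measurable _ _) (hb _) hqc _ _)
      (bdd_integrable (ltr_measurable _ _) (hb _) hqc _ _), h1, sub_self]
  have hV0 : lenV V ≤ n - 1 := by
    rw [hn, lenV_cons]
    simp only
    linarith
  have hW0 : lenV W ≤ n - 1 := by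
    rw [hn, hlen, lenV_cons]
    simp only
    linarith
  have hn1 : 1 ≤ n := by
    have := lenV_nonneg V (fun p hp => hV p (by simp [hp]))
    linarith
  have hDtop : ∀ y, n - 1 ≤ y → D y = 1 := by
    intro y hy
    have h1 : ¬ y < lenV V := by linarith
    have h2 : ¬ y < lenV W := by linarith
    rw [hD]
    simp only
    rw [ltr_cons, ltr_cons, if_neg h1, if_neg h2, if_pos rfl, if_neg (fun h => hab h.symm)]
    ring
  have hsplit : (∫ y in (0 : ℝ)..(n - 1), D y * q.eval y) + ∫ y in (n - 1)..n, D y * q.eval y =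
      0 := by
    rw [intervalIntegral.integral_add_adjacent_intervals
      (bdd_integrable hDm hDb hqc _ _) (bdd_integrable hDm hDb hqc _ _), horth]
  have e2 : ∫ y in (n - 1)..n, D y * q.eval y = ∫ y in (R - 1)..R, p.eval y := by
    have e : ∫ y in (n - 1)..n, D y * q.eval y = ∫ y in (n - 1)..n, p.eval (y + (R - n)) := by
      apply intervalIntegral.integral_congr_Ioo_of_le (by linarith)
      intro y hy
      simp only
      rw [hDtop y hy.1.le, one_mul, hqe]
    rw [e, intervalIntegral.integral_comp_add_right (fun y => p.eval y)]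
    congr 1 <;> ring
  have e1 : |∫ y in (0 : ℝ)..(n - 1), D y * q.eval y| ≤
      ∫ y in (R - n)..(R - 1), |p.eval y| := by
    have e3 : ∫ y in (0 : ℝ)..(n - 1), |q.eval y| = ∫ y in (R - n)..(R - 1), |p.eval y| := by
      simp only [hqe]
      rw [intervalIntegral.integral_comp_add_right (fun y => |p.eval y|)]
      congr 1 <;> ring
    rw [← e3, ← Real.norm_eq_abs]
    apply intervalIntegral.norm_integral_le_of_norm_le (by linarith)
    · apply Filter.Eventually.of_forall
      intro y _
      rw [Real.norm_eq_abs, abs_mul]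
      calc |D y| * |q.eval y| ≤ 1 * |q.eval y| :=
            mul_le_mul_of_nonneg_right (hDb y) (abs_nonneg _)
        _ = |q.eval y| := one_mul _
    · exact hqc.abs.intervalIntegrable _ _
  have := (abs_le.mp e1).1
  linarith

lemma diff_deg {t : ℕ} (ht : 1 ≤ t) (Q : Polynomial ℝ) (hQ : Q.natDegree ≤ t) :
    (Q.comp (Polynomial.X + Polynomial.C 1) - Q).natDegree < t := by
  rcases Nat.eq_zero_or_pos Q.natDegree with h0 | h0
  · have h1 := Polynomial.eq_C_of_natDegree_le_zero (le_of_eq h0)
    have h2 : Q.comp (Polynomial.X + Polynomial.C 1) - Q = 0 := by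
      rw [h1]; simp
    rw [h2]
    simp
    omega
  · have hQ0 : Q ≠ 0 := by
      rintro rfl
      simp at h0
    have hc0 : Q.comp (Polynomial.X + Polynomial.C 1) ≠ 0 := by
      intro h
      have h1 := congrArg Polynomial.natDegree h
      rw [Polynomial.natDegree_comp, Polynomial.natDegree_X_add_C, mul_one] at h1
      simp at h1
      omega
    have hd : (Q.comp (Polynomial.X + Polynomial.C 1)).degree = Q.degree := by
      rw [Polynomial.degree_eq_natDegree hc0, Polynomial.degree_eq_natDegree hQ0,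
        Polynomial.natDegree_comp, Polynomial.natDegree_X_add_C, mul_one]
    have hl : (Q.comp (Polynomial.X + Polynomial.C 1)).leadingCoeff = Q.leadingCoeff := by
      rw [Polynomial.leadingCoeff_comp (by rw [Polynomial.natDegree_X_add_C]; omega),
        Polynomial.leadingCoeff_X_add_C]
      simp
    have h1 := Polynomial.degree_sub_lt_right hd hQ0 hl
    rcases eq_or_ne (Q.comp (Polynomial.X + Polynomial.C 1) - Q) 0 with h2 | h2
    · rw [h2]
      simp
      omega
    · rw [Polynomial.degree_eq_natDegree h2, Polynomial.degree_eq_natDegree hQ0] at h1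
      have : (Q.comp (Polynomial.X + Polynomial.C 1) - Q).natDegree < Q.natDegree := by
        exact_mod_cast h1
      omega

/-- **A dominating polynomial for the positions `0, …, n - 1`, for all `n < R`.** -/
theorem exists_dom {t n : ℕ} (ht : 1 ≤ t) (hn1 : 1 ≤ n) (hn : (n : ℝ) < RT (t + 1)) :
    ∃ p : Polynomial ℝ, p.natDegree < t ∧
      ∑ j ∈ Ico 1 n, |p.eval ((j : ℕ) : ℝ)| < p.eval 0 := by
  obtain ⟨p, hpd, hp⟩ := extremal ht
  obtain ⟨R, hR⟩ : ∃ R, R = RT (t + 1) := ⟨_, rfl⟩
  rw [← hR] at hp hn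
  have hpn := hp n hn
  obtain ⟨q, hq⟩ : ∃ q : Polynomial ℝ, q = p.comp (Polynomial.C R - Polynomial.X) := ⟨_, rfl⟩
  have hqe : ∀ y, q.eval y = p.eval (R - y) := by
    intro y; rw [hq]; simp
  have hqd : q.natDegree ≤ t - 1 := by
    rw [hq]
    refine Polynomial.natDegree_comp_le.trans ?_
    have : (Polynomial.C R - Polynomial.X : Polynomial ℝ).natDegree ≤ 1 := by compute_degree
    calc p.natDegree * _ ≤ (t - 1) * 1 := Nat.mul_le_mul hpd this
      _ = t - 1 := mul_one _
  obtain ⟨Q, hQ1, hQ2⟩ := exists_anti q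
  have hqc : Continuous fun y => q.eval y := Polynomial.continuous q
  have hint : ∀ a b : ℝ, ∫ y in a..b, q.eval y = Q.eval b - Q.eval a := by
    intro a b
    rw [intervalIntegral.integral_eq_sub_of_hasDerivAt (f := fun y => Q.eval y)
      (fun y _ => by
        have := Polynomial.hasDerivAt Q y
        rwa [hQ1] at this) (hqc.intervalIntegrable _ _)]
  refine ⟨Q.comp (Polynomial.X + Polynomial.C 1) - Q, diff_deg ht Q (by omega), ?_⟩
  have he : ∀ x : ℝ, (Q.comp (Polynomial.X + Polynomial.C 1) - Q).eval x =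
      ∫ y in x..(x + 1), q.eval y := by
    intro x
    rw [hint]
    simp
  have e1 : ∑ j ∈ Ico 1 n, |(Q.comp (Polynomial.X + Polynomial.C 1) - Q).eval ((j : ℕ) : ℝ)| ≤
      ∫ y in (1 : ℝ)..n, |q.eval y| := by
    have h1 := intervalIntegral.sum_integral_adjacent_intervals_Ico (a := fun j : ℕ => (j : ℝ))
      (f := fun y => |q.eval y|) (μ := MeasureTheory.volume) hn1
      (fun k _ => hqc.abs.intervalIntegrable _ _)
    rw [show ((1 : ℕ) : ℝ) = 1 by norm_num] at h1
    rw [← h1]
    apply sum_le_sum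
    intro j _
    rw [he]
    push_cast
    exact intervalIntegral.abs_integral_le_integral_abs (by linarith)
  have e2 : ∫ y in (1 : ℝ)..n, |q.eval y| = ∫ y in (R - n)..(R - 1), |p.eval y| := by
    simp only [hqe]
    rw [intervalIntegral.integral_comp_sub_left (fun y => |p.eval y|)]
  have e3 : ∫ y in (0 : ℝ)..(0 + 1), q.eval y = ∫ y in (R - 1)..R, p.eval y := by
    simp only [hqe]
    rw [intervalIntegral.integral_comp_sub_left (fun y => p.eval y)]
    simp
  rw [he, e3]
  linarith

section ext

variable {α : Type*} [DecidableEq α]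

lemma conv_gbinR (r s : ℝ) : conv (gbin r) (gbin s) = gbin (r + s) := by
  funext m
  rw [conv, gbin_add]

lemma gbin_one_one : gbin (1 : ℝ) 1 = 1 := by simp [gbin]

lemma gbin_one_add_two (m : ℕ) : gbin (1 : ℝ) (m + 2) = 0 := by
  have h := gbin_succ (1 : ℝ) (m + 1)
  have h2 : ∀ m : ℕ, gbin (1 : ℝ) (m + 2) = 0 := by
    intro m
    rw [gbin, prod_eq_zero (i := 1) (by simp)]
    · simp
    · simp
  exact h2 m

/-- One letter. -/
lemma occ_step (a : α) (w u : List α) :
    (occ u (a :: w) : ℝ) = st a u (gbin 1) (fun v => (occ v w : ℝ)) := by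
  cases u with
  | nil => rw [st_nil, occ_nil, occ_nil, gbin_zero]; simp
  | cons c u =>
    rw [occ_cons_cons, st_cons, gbin_zero, one_mul]
    push_cast
    congr 1
    by_cases hca : c = a
    · rw [if_pos hca, if_pos hca, st_one a _ _ (by simpa using gbin_one_one)
        (fun m => gbin_one_add_two m)]
    · rw [if_neg hca, if_neg hca]

lemma occ_run (a : α) (w : List α) : ∀ (r : ℕ) (u : List α),
    (occ u (List.replicate r a ++ w) : ℝ) = st a u (gbin (r : ℝ)) (fun v => (occ v w : ℝ))
  | 0, u => by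
    rw [List.replicate_zero, List.nil_append, Nat.cast_zero,
      st_one a _ _ (gbin_zero _) gbin_zero_succ]
  | r + 1, u => by
    rw [List.replicate_succ, List.cons_append, occ_step]
    have e : (fun v => (occ v (List.replicate r a ++ w) : ℝ)) =
        fun v => st a v (gbin (r : ℝ)) (fun v => (occ v w : ℝ)) := by
      funext v; exact occ_run a w r v
    rw [e, st_st, conv_gbinR]
    push_cast
    rw [add_comm (1 : ℝ)]

/-- **Counts of run words extend counts of words.** -/
theorem rocc_cast : ∀ (l : List (α × ℕ)) (u : List α),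
    rocc (l.map fun p => (p.1, (p.2 : ℝ))) u =
      occ u (l.flatMap fun p => List.replicate p.2 p.1)
  | [], u => by
    cases u with
    | nil => simp [rocc_nil, occ_nil]
    | cons c u => simp [rocc_nil, occ_cons_nil]
  | (a, r) :: l, u => by
    rw [List.map_cons, rocc_cons, List.flatMap_cons, occ_run]
    apply st_congr
    intro v _
    exact rocc_cast l v

end ext

end Pool.Agent.Work.MP_02e323_rr
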