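import Mathlib
import Pool.Agent.Work.MP_02e323_rr.Low

/-!
# Explicit forms
-/

set_option autoImplicit false

open Finset

namespace Pool.Agent.Work.MP_02e323_rr

/-- The run lengths of the Chebyshev words. -/
noncomputable def rl (T k : ℕ) : ℝ :=
  Real.sin ((2 * (k : ℝ) + 1) * (Real.pi / (2 * T))) / Real.sin (Real.pi / (2 * T))

lemma xs_diff {T : ℕ} (hT : 2 ≤ T) (k : ℕ) : xs T (k + 1) - xs T k = rl T k := by
  have h := sin_half_pos hT
  have hT0 := T_pos hT
  obtain ⟨θ, hθ⟩ : ∃ θ, θ = Real.pi / (2 * T) := ⟨_, rfl⟩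
  have e : Real.pi / T = 2 * θ := by rw [hθ]; field_simp
  rw [xs, xs, rl, RT, e, ← hθ]
  rw [← hθ] at h
  have h1 : Real.cos ((k : ℝ) * (2 * θ)) - Real.cos (((k + 1 : ℕ) : ℝ) * (2 * θ)) =
      2 * Real.sin ((2 * k + 1) * θ) * Real.sin θ := by
    rw [Real.cos_sub_cos, show ((k : ℝ) * (2 * θ) + ((k + 1 : ℕ) : ℝ) * (2 * θ)) / 2 =
      (2 * k + 1) * θ by push_cast; ring, show ((k : ℝ) * (2 * θ) -
      ((k + 1 : ℕ) : ℝ) * (2 * θ)) / 2 = -θ by push_cast; ring, Real.sin_neg]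
    ring
  generalize Real.cos (((k + 1 : ℕ) : ℝ) * (2 * θ)) = A at h1 ⊢
  generalize Real.cos ((k : ℝ) * (2 * θ)) = B at h1 ⊢
  generalize Real.sin ((2 * (k : ℝ) + 1) * θ) = S at h1 ⊢
  field_simp
  linear_combination h1

lemma rl_symm {T : ℕ} (hT : 2 ≤ T) {k : ℕ} (hk : k < T) : rl T (T - 1 - k) = rl T k := by
  have hT0 := T_pos hT
  have e : (2 * ((T - 1 - k : ℕ) : ℝ) + 1) * (Real.pi / (2 * T)) =
      Real.pi - (2 * (k : ℝ) + 1) * (Real.pi / (2 * T)) := by
    rw [Nat.cast_sub (by omega), Nat.cast_sub (by omega)]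
    push_cast
    field_simp
    ring
  rw [rl, rl, e, Real.sin_pi_sub]

lemma cw_eq {T : ℕ} (hT : 2 ≤ T) : ∀ (k : ℕ) (s : Bool),
    cw T k s = (List.range k).map fun j => (Bool.xor s (decide (j % 2 = 1)), rl T (k - 1 - j))
  | 0, s => by simp [cw_zero]
  | k + 1, s => by
    rw [cw_succ, cw_eq hT k, List.range_succ_eq_map, List.map_cons, List.map_map, xs_diff hT]
    congr 1
    · simp
    · apply List.map_congr_left
      intro j hj
      rw [List.mem_range] at hj
      simp only [Function.comp]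
      congr 1
      · rcases Nat.mod_two_eq_zero_or_one j with h | h
        · have h2 : (j + 1) % 2 = 1 := by omega
          simp [h, Nat.succ_eq_add_one, h2]
        · have h2 : (j + 1) % 2 = 0 := by omega
          simp [h, Nat.succ_eq_add_one, h2]
      · congr 1
        omega

/-- The Chebyshev word, from the left. -/
lemma cw_eq' {T : ℕ} (hT : 2 ≤ T) (s : Bool) :
    cw T T s = (List.range T).map fun j => (Bool.xor s (decide (j % 2 = 1)), rl T j) := by
  rw [cw_eq hT]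
  apply List.map_congr_left
  intro j hj
  rw [List.mem_range] at hj
  rw [rl_symm hT hj]

lemma cw_chain (T : ℕ) : ∀ (k : ℕ) (s : Bool),
    (cw T k s).IsChain (fun p q => p.1 ≠ q.1)
  | 0, s => by rw [cw_zero]; exact List.isChain_nil
  | 1, s => by rw [cw_succ, cw_zero]; exact List.isChain_singleton _
  | k + 2, s => by
    have h := cw_chain T (k + 1) (!s)
    rw [cw_succ, cw_succ]
    rw [cw_succ] at h
    rw [List.isChain_cons_cons]
    refine ⟨?_, h⟩
    simp

/-- `R t > 4 (t + 1)² / π²`. -/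
lemma RT_gt {T : ℕ} (hT : 2 ≤ T) : 4 / Real.pi ^ 2 * (T : ℝ) ^ 2 < RT T := by
  have h := sin_half_pos hT
  have hT0 := T_pos hT
  have h1 := Real.sin_lt (half_angle hT).1
  have hp := Real.pi_pos
  rw [RT, lt_div_iff₀ (by positivity)]
  have h2 : Real.sin (Real.pi / (2 * T)) ^ 2 < (Real.pi / (2 * T)) ^ 2 := by
    apply pow_lt_pow_left₀ h1 h.le (by norm_num)
  calc 4 / Real.pi ^ 2 * (T : ℝ) ^ 2 * Real.sin (Real.pi / (2 * T)) ^ 2 <
        4 / Real.pi ^ 2 * (T : ℝ) ^ 2 * (Real.pi / (2 * T)) ^ 2 := by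
          apply mul_lt_mul_of_pos_left h2 (by positivity)
    _ = 1 := by field_simp; norm_num

lemma RT_two_mul (T : ℕ) (hT : 2 ≤ T) : RT T * (1 - Real.cos (Real.pi / T)) = 2 := by
  have := RT_mul hT
  linarith

lemma RT_two : RT 2 = 2 := by
  have h := RT_two_mul 2 le_rfl
  rw [show Real.pi / ((2 : ℕ) : ℝ) = Real.pi / 2 by norm_num, Real.cos_pi_div_two] at h
  linarith

lemma RT_three : RT 3 = 4 := by
  have h := RT_two_mul 3 (by norm_num)
  rw [show Real.pi / ((3 : ℕ) : ℝ) = Real.pi / 3 by norm_num, Real.cos_pi_div_three] at h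
  linarith

lemma RT_four : RT 4 = 4 + 2 * Real.sqrt 2 := by
  have h := RT_two_mul 4 (by norm_num)
  rw [show Real.pi / ((4 : ℕ) : ℝ) = Real.pi / 4 by norm_num, Real.cos_pi_div_four] at h
  have h2 : Real.sqrt 2 * Real.sqrt 2 = 2 := Real.mul_self_sqrt (by norm_num)
  linear_combination (2 + Real.sqrt 2) * h + (RT 4 / 2) * h2

lemma RT_five : RT 5 = 6 + 2 * Real.sqrt 5 := by
  have h := RT_two_mul 5 (by norm_num)
  rw [show Real.pi / ((5 : ℕ) : ℝ) = Real.pi / 5 by norm_num, Real.cos_pi_div_five] at h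
  have h2 : Real.sqrt 5 * Real.sqrt 5 = 5 := Real.mul_self_sqrt (by norm_num)
  linear_combination (3 + Real.sqrt 5) * h + (RT 5 / 4) * h2

end Pool.Agent.Work.MP_02e323_rr
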