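import Mathlib
import Pool.Agent.Work.MP_02e323_rr.Cw

/-!
# The full family of pairs of words with `T` real runs and the same counts up to length `T - 1`
-/

set_option autoImplicit false

open Finset

namespace Pool.Agent.Work.MP_02e323_rr

/-- The word with `k` runs whose first letter is `s`. -/
noncomputable def gw (T : ℕ) (c : Bool → ℝ) (z : ℝ) : ℕ → Bool → List (Bool × ℝ)
  | 0, _ => []
  | k + 1, s => (s, c s * Real.sin (((k : ℝ) + 1 / 2) * (Real.pi / T) - dl ((-1) ^ k * z) s)) ::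
      gw T c z k (!s)

lemma gw_zero (T : ℕ) (c : Bool → ℝ) (z : ℝ) (s : Bool) : gw T c z 0 s = [] := rfl

lemma gw_succ (T : ℕ) (c : Bool → ℝ) (z : ℝ) (k : ℕ) (s : Bool) : gw T c z (k + 1) s =
    (s, c s * Real.sin (((k : ℝ) + 1 / 2) * (Real.pi / T) - dl ((-1) ^ k * z) s)) ::
      gw T c z k (!s) := rfl

theorem rocc_gw (T : ℕ) (c : Bool → ℝ) (z : ℝ) (u : List Bool) (hu : u.length < T) :
    rocc (gw T c z T true) u = rocc (gw T c z T false) u := by
  have hT1 : (1 : ℝ) ≤ T := by
    have : 1 ≤ T := by omega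
    exact_mod_cast this
  have hT : (0 : ℝ) < T := by linarith
  have hp := Real.pi_pos
  have hδ : |Real.pi / T| = Real.pi / T := abs_of_pos (div_pos Real.pi_pos hT)
  obtain ⟨δ, hδe⟩ : ∃ δ : ℝ, δ = Real.pi / T := ⟨_, rfl⟩
  have hδ0 : 0 < δ := by rw [hδe]; positivity
  have hδ1 : δ ≤ Real.pi := by
    rw [hδe]
    exact div_le_self hp.le hT1
  have hs : Real.sin (δ / 2) ≠ 0 :=
    (Real.sin_pos_of_pos_of_lt_pi (by linarith) (by linarith)).ne'
  obtain ⟨x, hxe⟩ : ∃ x : Bool → ℝ → ℂ, x = fun s y =>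
    ((-(c s / (2 * Real.sin (δ / 2))) * Real.cos y : ℝ) : ℂ) := ⟨_, rfl⟩
  have hx : ∀ s, x s ∈ TP 1 := by
    intro s
    have := (TP 1).smul_mem (((-(c s / (2 * Real.sin (δ / 2))) : ℝ) : ℂ)) cos_mem
    rw [hxe]
    convert this using 1
    funext y
    simp
  rw [← hδe] at hδ
  obtain ⟨vx, hvx⟩ : ∃ vx : ℕ → Bool → ℝ, vx = fun (k : ℕ) s => dl (k * δ) s + (-1) ^ k * z :=
    ⟨_, rfl⟩
  have hstep : ∀ (k : ℕ) (s : Bool), dl δ s - vx (k + 1) s = vx k (!s) := by
    intro k s
    rw [hvx]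
    simp only
    rw [pow_succ]
    cases s <;> simp [dl] <;> ring
  have hrun : ∀ (k : ℕ) (s : Bool), x s (vx (k + 1) s) - x s (vx k (!s)) =
      ((c s * Real.sin (((k : ℝ) + 1 / 2) * δ - dl ((-1) ^ k * z) s) : ℝ) : ℂ) := by
    intro k s
    rw [hxe, hvx]
    simp only
    rw [← Complex.ofReal_sub]
    congr 1
    rw [pow_succ]
    obtain ⟨w, hw⟩ : ∃ w : ℝ, w = (-1) ^ k * z := ⟨_, rfl⟩
    have e1 : (-1 : ℝ) ^ k * -1 * z = -w := by rw [hw]; ring
    rw [e1, ← hw]
    have key : ∀ v : ℝ, Real.cos (((k : ℝ) + 1) * δ - v) - Real.cos (k * δ - v) =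
        -(2 * Real.sin (((k : ℝ) + 1 / 2) * δ - v) * Real.sin (δ / 2)) := by
      intro v
      rw [Real.cos_sub_cos, show (((k : ℝ) + 1) * δ - v + (k * δ - v)) / 2 =
        ((k : ℝ) + 1 / 2) * δ - v by ring, show (((k : ℝ) + 1) * δ - v - (k * δ - v)) / 2 =
        δ / 2 by ring]
      ring
    cases s
    · have k1 := key (-w)
      simp only [dl, Bool.false_eq_true, if_false, Bool.not_false, if_true]
      push_cast
      rw [show -(((k : ℝ) + 1) * δ) + -w = -(((k : ℝ) + 1) * δ - -w) by ring, Real.cos_neg,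
        show (k : ℝ) * δ + w = k * δ - -w by ring]
      have k2 : Real.cos (((k : ℝ) + 1) * δ - -w) = Real.cos (k * δ - -w) -
        2 * Real.sin (((k : ℝ) + 1 / 2) * δ - -w) * Real.sin (δ / 2) := by linarith
      rw [k2]
      field_simp
      ring
    · have k1 := key w
      simp only [dl, Bool.false_eq_true, if_false, Bool.not_true, if_true]
      push_cast
      rw [show ((k : ℝ) + 1) * δ + -w = ((k : ℝ) + 1) * δ - w by ring,
        show -((k : ℝ) * δ) + w = -(k * δ - w) by ring, Real.cos_neg]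
      have k2 : Real.cos (((k : ℝ) + 1) * δ - w) = Real.cos (k * δ - w) -
        2 * Real.sin (((k : ℝ) + 1 / 2) * δ - w) * Real.sin (δ / 2) := by linarith
      rw [k2]
      field_simp
      ring
  obtain ⟨G, hG0, hG1, hG2⟩ := exists_gam (by rw [hδ, hδe]) x hx z u.length hu
  have key : ∀ (k : ℕ) (s : Bool) (v : List Bool), v.length ≤ u.length →
      ((rocc (gw T c z k s) v : ℝ) : ℂ) = G v (vx k s) := by
    intro k
    induction k with
    | zero =>
      intro s v _
      rw [gw_zero, rocc_nil]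
      have : vx 0 s = z := by rw [hvx]; cases s <;> simp [dl]
      rw [this]
      split_ifs with h
      · rw [h, hG0]; simp
      · rw [hG1 v h]; simp
    | succ k ih =>
      intro s v hv
      rw [gw_succ, rocc_cons, st_cast, (hG2 v hv).2 s, hstep, hrun, ← hδe]
      have e : ∀ r : ℝ, (fun m => ((gbin r m : ℝ) : ℂ)) = gbin ((r : ℝ) : ℂ) := by
        intro r
        funext m
        rw [gbin_cast]
      rw [e]
      apply st_congr
      intro v' hv'
      exact ih (!s) v' (by omega)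
  have h1 := key T true u le_rfl
  have h2 := key T false u le_rfl
  have hTδ : (T : ℝ) * δ = Real.pi := by rw [hδe]; field_simp
  have v1 : vx T true = vx T false + 2 * Real.pi := by
    rw [hvx]
    simp only [dl, Bool.false_eq_true, if_true, if_false]
    rw [hTδ]
    ring
  have h3 := TP_period (hG2 u le_rfl).1 (vx T false)
  rw [v1, h3, ← h2] at h1
  exact_mod_cast h1

lemma gw_eq (T : ℕ) (c : Bool → ℝ) (z : ℝ) : ∀ (k : ℕ) (s : Bool),
    gw T c z k s = (List.range k).map fun j => (Bool.xor s (decide (j % 2 = 1)),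
      c (Bool.xor s (decide (j % 2 = 1))) *
        Real.sin ((((k - 1 - j : ℕ) : ℝ) + 1 / 2) * (Real.pi / T) -
          dl ((-1) ^ (k - 1 - j) * z) (Bool.xor s (decide (j % 2 = 1)))))
  | 0, s => by simp [gw_zero]
  | k + 1, s => by
    rw [gw_succ, gw_eq T c z k, List.range_succ_eq_map, List.map_cons, List.map_map]
    congr 1
    · simp
    · apply List.map_congr_left
      intro j hj
      rw [List.mem_range] at hj
      simp only [Function.comp]
      have e1 : Bool.xor (!s) (decide (j % 2 = 1)) =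
          Bool.xor s (decide (j.succ % 2 = 1)) := by
        rcases Nat.mod_two_eq_zero_or_one j with h | h
        · have h2 : (j + 1) % 2 = 1 := by omega
          simp [h, Nat.succ_eq_add_one, h2]
        · have h2 : (j + 1) % 2 = 0 := by omega
          simp [h, Nat.succ_eq_add_one, h2]
      have e2 : k - 1 - j = k + 1 - 1 - j.succ := by omega
      rw [e1, e2]

/-- The word with the `T` runs of lengths `c * sin (θ + k π / T)`, `k = 0, …, T - 1`, from the
left, starting with the letter `s`. -/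
noncomputable def fw (T : ℕ) (c : Bool → ℝ) (θ : ℝ) (s : Bool) : List (Bool × ℝ) :=
  (List.range T).map fun k : ℕ => (Bool.xor s (decide (k % 2 = 1)),
    c (Bool.xor s (decide (k % 2 = 1))) * Real.sin (θ + k * (Real.pi / T)))

lemma gw_fw {T : ℕ} (hT : 1 ≤ T) (c : Bool → ℝ) (z : ℝ) (s : Bool) :
    gw T c z T s = fw T c (Real.pi / T / 2 + dl ((-1) ^ (T - 1) * z) s) s := by
  have hT0 : (0 : ℝ) < T := by
    have : 0 < T := by omega
    exact_mod_cast this
  rw [gw_eq, fw]
  apply List.map_congr_left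
  intro j hj
  rw [List.mem_range] at hj
  congr 2
  have e1 : dl ((-1) ^ (T - 1 - j) * z) (Bool.xor s (decide (j % 2 = 1))) =
      dl ((-1) ^ (T - 1) * z) s := by
    obtain ⟨m, hm⟩ : ∃ m, T - 1 = m + j := ⟨T - 1 - j, by omega⟩
    have hm' : T - 1 - j = m := by omega
    rw [hm', hm, pow_add]
    rcases Nat.mod_two_eq_zero_or_one j with h | h
    · have h2 : (-1 : ℝ) ^ j = 1 := Even.neg_one_pow (Nat.even_iff.mpr h)
      rw [h2]
      simp [h]
    · have h2 : (-1 : ℝ) ^ j = -1 := Odd.neg_one_pow (Nat.odd_iff.mpr h)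
      rw [h2]
      cases s <;> simp [h, dl]
  rw [e1, ← Real.sin_pi_sub]
  congr 1
  rw [Nat.cast_sub (by omega), Nat.cast_sub hT]
  push_cast
  field_simp
  ring

/-- **The family.** -/
theorem rocc_fw {T : ℕ} (hT : 1 ≤ T) (c : Bool → ℝ) (θ : ℝ) (u : List Bool)
    (hu : u.length < T) :
    rocc (fw T c θ true) u = rocc (fw T c (Real.pi / T - θ) false) u := by
  obtain ⟨z, hz⟩ : ∃ z : ℝ, z = (-1) ^ (T - 1) * (θ - Real.pi / T / 2) := ⟨_, rfl⟩
  have h := rocc_gw T c z u hu
  have e : (-1 : ℝ) ^ (T - 1) * z = θ - Real.pi / T / 2 := by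
    rw [hz, ← mul_assoc, ← mul_pow]
    simp
  rw [gw_fw hT, gw_fw hT, e] at h
  simp only [dl, Bool.false_eq_true, if_true, if_false] at h
  rw [show Real.pi / T / 2 + (θ - Real.pi / T / 2) = θ by ring,
    show Real.pi / T / 2 + -(θ - Real.pi / T / 2) = Real.pi / T - θ by ring] at h
  exact h

end Pool.Agent.Work.MP_02e323_rr
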