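import Mathlib
import Pool.Agent.Work.MP_02e323_xi.Main
import Pool.Agent.Work.MP_02e323_rr.Expl

/-!
# Words with few runs
-/

set_option autoImplicit false

open Finset

namespace Pool.Agent.Work.MP_02e323_rr

open Pool.Agent.Work.MP_02e323_helper29 (occ)
open Pool.Agent.Work.MP_02e323_helper33
open Pool.Agent.Work.MP_02e323_xi (isPol_eval length_eq)

section integer

variable {α : Type*} [DecidableEq α]

/-- The number of changes of the indicator of the letter `a` along a word. -/
def chg (a : α) : List α → ℕ
  | b :: c :: w => (if (b = a ↔ c = a) then 0 else 1) + chg a (c :: w)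
  | _ => 0

lemma chg_single (a b : α) : chg a [b] = 0 := rfl

lemma chg_cons (a b c : α) (w : List α) :
    chg a (b :: c :: w) = (if (b = a ↔ c = a) then 0 else 1) + chg a (c :: w) := rfl

/-- The sign of a letter. -/
noncomputable def sgl (a b : α) : ℝ := if b = a then 1 else -1

lemma sgl_mul (a b : α) : sgl a b * sgl a b = 1 := by
  unfold sgl; split_ifs <;> norm_num

/-- The polynomial which has the sign of the indicator of `a` at every position. -/
lemma sign_poly (a : α) : ∀ (v : List α) (c : α), ∃ P : Polynomial ℝ,
    P.natDegree ≤ chg a (c :: v) ∧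
    (∀ y : ℝ, (v.length : ℝ) ≤ y → 0 < sgl a c * P.eval y) ∧
    ∀ (x : List α) (b : α) (z : List α), c :: v = x ++ b :: z →
      0 < sgl a b * P.eval (z.length : ℝ)
  | [], c => by
    refine ⟨Polynomial.C (sgl a c), by simp, ?_, ?_⟩
    · intro y _
      rw [Polynomial.eval_C, sgl_mul]
      norm_num
    · intro x b z h
      have h1 : x = [] ∧ c = b ∧ z = [] := by
        cases x with
        | nil => simp at h; exact ⟨rfl, h.1, h.2⟩
        | cons d x => simp at h
      obtain ⟨_, rfl, _⟩ := h1
      rw [Polynomial.eval_C, sgl_mul]
      norm_num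
  | d :: v, c => by
    obtain ⟨P, h1, h2, h3⟩ := sign_poly a v d
    by_cases hcd : (c = a ↔ d = a)
    · have hs : sgl a c = sgl a d := by
        unfold sgl
        by_cases hc : c = a
        · rw [if_pos hc, if_pos (hcd.mp hc)]
        · rw [if_neg hc, if_neg (fun h => hc (hcd.mpr h))]
      refine ⟨P, ?_, ?_, ?_⟩
      · rw [chg_cons, if_pos hcd]
        omega
      · intro y hy
        rw [hs]
        apply h2
        rw [List.length_cons] at hy
        push_cast at hy
        linarith
      · intro x b z h
        cases x with
        | nil =>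
          simp only [List.nil_append, List.cons.injEq] at h
          obtain ⟨rfl, rfl⟩ := h
          rw [hs]
          apply h2
          rw [List.length_cons]
          push_cast
          linarith
        | cons e x =>
          simp only [List.cons_append, List.cons.injEq] at h
          exact h3 x b z h.2
    · have hs : sgl a c = - sgl a d := by
        unfold sgl
        by_cases hc : c = a
        · have hd : d ≠ a := fun hd => hcd ⟨fun _ => hd, fun _ => hc⟩
          rw [if_pos hc, if_neg hd]
          norm_num
        · have hd : d = a := by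
            by_contra hd
            exact hcd ⟨fun h => absurd h hc, fun h => absurd h hd⟩
          rw [if_neg hc, if_pos hd]
      have he : ∀ y : ℝ, ((Polynomial.C ((v.length : ℝ) + 1 / 2) - Polynomial.X) * P).eval y =
          ((v.length : ℝ) + 1 / 2 - y) * P.eval y := by
        intro y; simp
      refine ⟨(Polynomial.C ((v.length : ℝ) + 1 / 2) - Polynomial.X) * P, ?_, ?_, ?_⟩
      · rw [chg_cons, if_neg hcd]
        refine Polynomial.natDegree_mul_le.trans ?_
        have : (Polynomial.C ((v.length : ℝ) + 1 / 2) - Polynomial.X :
            Polynomial ℝ).natDegree ≤ 1 := by compute_degree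
        omega
      · intro y hy
        rw [List.length_cons] at hy
        push_cast at hy
        rw [he, hs]
        have := h2 y (by linarith)
        have hn : 0 < y - ((v.length : ℝ) + 1 / 2) := by linarith
        calc 0 < (y - ((v.length : ℝ) + 1 / 2)) * (sgl a d * P.eval y) := mul_pos hn this
          _ = _ := by ring
      · intro x b z h
        cases x with
        | nil =>
          simp only [List.nil_append, List.cons.injEq] at h
          obtain ⟨rfl, rfl⟩ := h
          rw [he, hs, List.length_cons]
          push_cast
          have := h2 ((v.length : ℝ) + 1) (by linarith)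
          have hn : 0 < ((v.length : ℝ) + 1) - ((v.length : ℝ) + 1 / 2) := by linarith
          calc 0 < (((v.length : ℝ) + 1) - ((v.length : ℝ) + 1 / 2)) *
                (sgl a d * P.eval ((v.length : ℝ) + 1)) := mul_pos hn this
            _ = _ := by ring
        | cons e x =>
          simp only [List.cons_append, List.cons.injEq] at h
          have := h3 x b z h.2
          have hl : (z.length : ℝ) ≤ v.length := by
            have h4 := congrArg List.length h.2
            simp only [List.length_cons, List.length_append] at h4
            have : z.length ≤ v.length := by omega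
            exact_mod_cast this
          rw [he]
          have hn : 0 < ((v.length : ℝ) + 1 / 2) - z.length := by linarith
          calc 0 < (((v.length : ℝ) + 1 / 2) - z.length) * (sgl a b * P.eval (z.length : ℝ)) :=
                mul_pos hn this
            _ = _ := by ring

/-- Comparison of the moments. -/
lemma J_compare (a : α) (P : Polynomial ℝ) : ∀ (w w' : List α), w.length = w'.length →
    (∀ (x : List α) (b : α) (z : List α), w = x ++ b :: z →
      0 < sgl a b * P.eval (z.length : ℝ)) →
    0 ≤ J a (fun v : List α => P.eval (v.length : ℝ)) w -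
        J a (fun v : List α => P.eval (v.length : ℝ)) w' ∧
      (J a (fun v : List α => P.eval (v.length : ℝ)) w =
        J a (fun v : List α => P.eval (v.length : ℝ)) w' →
        w.map (fun b => decide (b = a)) = w'.map (fun b => decide (b = a)))
  | [], w', hl, _ => by
    have : w' = [] := List.length_eq_zero_iff.mp (by simpa using hl.symm)
    subst this
    simp
  | c :: v, [], hl, _ => by simp at hl
  | c :: v, c' :: v', hl, hP => by
    have hl' : v.length = v'.length := by simpa using hl
    obtain ⟨h1, h2⟩ := J_compare a P v v' hl' (fun x b z h => hP (c :: x) b z (by simp [h]))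
    have h3 := hP [] c v rfl
    simp only [J_cons]
    rw [hl'] at h3 ⊢
    obtain ⟨p, hp⟩ : ∃ p, p = P.eval (v'.length : ℝ) := ⟨_, rfl⟩
    rw [← hp] at h3 ⊢
    unfold sgl at h3
    by_cases hc : c = a
    · rw [if_pos hc] at h3 ⊢
      by_cases hc' : c' = a
      · rw [if_pos hc']
        refine ⟨by linarith, fun h => ?_⟩
        rw [List.map_cons, List.map_cons, h2 (by linarith)]
        simp [hc, hc']
      · rw [if_neg hc']
        refine ⟨by linarith, fun h => ?_⟩
        exfalso
        linarith
    · rw [if_neg hc] at h3 ⊢
      by_cases hc' : c' = a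
      · rw [if_pos hc']
        refine ⟨by linarith, fun h => ?_⟩
        exfalso
        linarith
      · rw [if_neg hc']
        refine ⟨by linarith, fun h => ?_⟩
        rw [List.map_cons, List.map_cons, h2 (by linarith)]
        simp [hc, hc']

/-- **Words all of whose letter indicators have at most `t` runs are determined.** -/
theorem few_det [Fintype α] {t : ℕ} (ht : 1 ≤ t) (w w' : List α)
    (hw : ∀ a : α, chg a w + 1 ≤ t)
    (h : ∀ u : List α, u.length ≤ t → occ u w = occ u w') : w = w' := by
  have hl := length_eq ht w w' h
  have key : ∀ a : α, w.map (fun b => decide (b = a)) = w'.map (fun b => decide (b = a)) := by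
    intro a
    cases w with
    | nil =>
      have : w' = [] := List.length_eq_zero_iff.mp (by simpa using hl.symm)
      rw [this]
    | cons c v =>
      obtain ⟨P, h1, _, h3⟩ := sign_poly a v c
      have hpol : IsPol t (J a (fun w : List α => P.eval ((w.length : ℕ) : ℝ))) := by
        have := isPol_J (isPol_eval (α := α) P h1) a
        exact this.mono (hw a)
      have heq := pol_eq_of_occ (R := ℝ) (w := c :: v) (w' := w') (t := t)
        (fun u hu => by rw [h u hu]) _ hpol
      exact (J_compare a P (c :: v) w' hl h3).2 heq
  apply List.ext_getElem hl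
  intro i h1 h2
  have h3 := congrArg (fun l => l[i]?) (key w[i])
  simp only [List.getElem?_map, List.getElem?_eq_getElem h1, List.getElem?_eq_getElem h2,
    Option.map_some, Option.some.injEq, decide_true] at h3
  have := of_decide_eq_true h3.symm
  exact this.symm

end integer

section real

/-- The sign of a letter. -/
noncomputable def sgb (b : Bool) : ℝ := if b = true then 1 else -1

lemma sgb_not (b : Bool) : sgb (!b) = - sgb b := by
  cases b <;> simp [sgb]

lemma sgb_mul (b : Bool) : sgb b * sgb b = 1 := by
  cases b <;> norm_num [sgb]

lemma ltr_sgb (b : Bool) : 2 * (if b = true then (1 : ℝ) else 0) - 1 = sgb b := by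
  cases b <;> norm_num [sgb]

lemma sign_polyV : ∀ (V : List (Bool × ℝ)) (b : Bool) (r : ℝ), (∀ p ∈ (b, r) :: V, 0 < p.2) →
    ((b, r) :: V).IsChain (fun p q => p.1 ≠ q.1) → ∃ P : Polynomial ℝ,
      P.natDegree ≤ V.length ∧ (∀ y, lenV V ≤ y → 0 ≤ sgb b * P.eval y) ∧
      (∀ y, lenV V < y → 0 < sgb b * P.eval y) ∧
      ∀ y, 0 ≤ y → 0 ≤ (2 * ltr true ((b, r) :: V) y - 1) * P.eval y
  | [], b, r, _, _ => by
    refine ⟨Polynomial.C (sgb b), by simp, ?_, ?_, ?_⟩
    · intro y _
      rw [Polynomial.eval_C, sgb_mul]
      norm_num
    · intro y _
      rw [Polynomial.eval_C, sgb_mul]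
      norm_num
    · intro y hy
      rw [ltr_cons, lenV_nil, if_neg (not_lt.mpr hy), ltr_sgb, Polynomial.eval_C, sgb_mul]
      norm_num
  | (c, s) :: V, b, r, hpos, hch => by
    rw [List.isChain_cons_cons] at hch
    obtain ⟨hbc, hch⟩ := hch
    have hpos' : ∀ p ∈ (c, s) :: V, 0 < p.2 := fun p hp => hpos p (List.mem_cons_of_mem _ hp)
    have hs : 0 < s := hpos' (c, s) (by simp)
    obtain ⟨P, h1, h2, h3, h4⟩ := sign_polyV V c s hpos' hch
    have hsg : sgb b = - sgb c := by
      simp only at hbc
      cases b <;> cases c <;> simp_all [sgb]
    obtain ⟨L, hL⟩ : ∃ L, L = lenV ((c, s) :: V) := ⟨_, rfl⟩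
    have hLV : lenV V < L := by
      rw [hL, lenV_cons]
      simp only
      linarith
    have he : ∀ y : ℝ, ((Polynomial.C L - Polynomial.X) * P).eval y = (L - y) * P.eval y := by
      intro y; simp
    rw [← hL]
    have k2 : ∀ y, L ≤ y → 0 ≤ sgb b * ((Polynomial.C L - Polynomial.X) * P).eval y := by
      intro y hy
      rw [he, hsg]
      have := h2 y (by linarith)
      have hn : 0 ≤ y - L := by linarith
      calc 0 ≤ (y - L) * (sgb c * P.eval y) := mul_nonneg hn this
        _ = _ := by ring
    refine ⟨(Polynomial.C L - Polynomial.X) * P, ?_, k2, ?_, ?_⟩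
    · refine Polynomial.natDegree_mul_le.trans ?_
      have : (Polynomial.C L - Polynomial.X : Polynomial ℝ).natDegree ≤ 1 := by compute_degree
      rw [List.length_cons]
      omega
    · intro y hy
      rw [he, hsg]
      have := h3 y (by linarith)
      have hn : 0 < y - L := by linarith
      calc 0 < (y - L) * (sgb c * P.eval y) := mul_pos hn this
        _ = _ := by ring
    · intro y hy
      rw [ltr_cons, ← hL]
      by_cases hyL : y < L
      · rw [if_pos hyL, he]
        have := h4 y hy
        have hn : 0 ≤ L - y := by linarith
        calc 0 ≤ (L - y) * ((2 * ltr true ((c, s) :: V) y - 1) * P.eval y) := mul_nonneg hn this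
          _ = _ := by ring
      · rw [if_neg hyL, ltr_sgb]
        exact k2 y (not_lt.mp hyL)

lemma ltr_zero_or (a : Bool) : ∀ (V : List (Bool × ℝ)) (y : ℝ), ltr a V y = 0 ∨ ltr a V y = 1
  | [], y => Or.inl rfl
  | (b, r) :: V, y => by
    rw [ltr_cons]
    split_ifs
    · exact ltr_zero_or a V y
    · exact Or.inr rfl
    · exact Or.inl rfl

/-- Two run words with different first letters, the first one with at most `t` runs, have different
counts up to the length `t`. -/
lemma heads_ne {t : ℕ} {V W : List (Bool × ℝ)} {a b : Bool} {r s : ℝ}
    (hV : ∀ p ∈ (a, r) :: V, 0 < p.2) (hW : ∀ p ∈ (b, s) :: W, 0 < p.2)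
    (hVc : ((a, r) :: V).IsChain (fun p q => p.1 ≠ q.1)) (hVt : V.length + 1 ≤ t)
    (hab : a ≠ b)
    (h : ∀ u : List Bool, u.length ≤ t → rocc ((a, r) :: V) u = rocc ((b, s) :: W) u) :
    False := by
  obtain ⟨P, h1, _, h3, h4⟩ := sign_polyV V a r hV hVc
  obtain ⟨Q, hQ1, hQ2⟩ := exists_anti P
  have hlen := len_eq_of_rocc (by omega) h
  obtain ⟨n, hn⟩ : ∃ n, n = lenV ((a, r) :: V) := ⟨_, rfl⟩
  have e1 := Jr_eq_of_rocc h true t le_rfl Q (by omega)
  rw [Jr_eq_integral true Q _ (fun p hp => (hV p hp).le),
    Jr_eq_integral true Q _ (fun p hp => (hW p hp).le), ← hlen, ← hn, hQ1] at e1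
  have hb : ∀ (W : List (Bool × ℝ)) (y : ℝ), |ltr true W y| ≤ 1 := by
    intro W y
    have := ltr_bound true W y
    rw [abs_of_nonneg this.1]
    exact this.2
  have hPc : Continuous fun y => P.eval y := Polynomial.continuous P
  obtain ⟨D, hD⟩ : ∃ D : ℝ → ℝ, D = fun y => ltr true ((a, r) :: V) y -
    ltr true ((b, s) :: W) y := ⟨_, rfl⟩
  have hDm : Measurable D := by
    rw [hD]; exact (ltr_measurable _ _).sub (ltr_measurable _ _)
  have hDb : ∀ y, |D y| ≤ 1 := by
    intro y
    rw [hD]
    have h1 := ltr_bound true ((a, r) :: V) y
    have h2 := ltr_bound true ((b, s) :: W) y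
    rw [abs_le]
    constructor <;> simp only <;> linarith
  have horth : ∫ y in (0 : ℝ)..n, D y * P.eval y = 0 := by
    have e : ∀ y, D y * P.eval y = ltr true ((a, r) :: V) y * P.eval y -
        ltr true ((b, s) :: W) y * P.eval y := by
      intro y; rw [hD]; simp only; ring
    simp only [e]
    rw [intervalIntegral.integral_sub (bdd_integrable (ltr_measurable _ _) (hb _) hPc _ _)
      (bdd_integrable (ltr_measurable _ _) (hb _) hPc _ _), e1, sub_self]
  have hr : 0 < r := hV (a, r) (by simp)
  have hs : 0 < s := hW (b, s) (by simp)
  obtain ⟨m, hm⟩ : ∃ m, m = max (lenV V) (lenV W) := ⟨_, rfl⟩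
  have hm0 : 0 ≤ m := by
    rw [hm]
    exact le_max_of_le_left (lenV_nonneg V (fun p hp => (hV p (List.mem_cons_of_mem _ hp)).le))
  have hV0 : lenV V < n := by
    rw [hn, lenV_cons]
    simp only
    linarith
  have hW0 : lenV W < n := by
    rw [hn, hlen, lenV_cons]
    simp only
    linarith
  have hmn : m < n := by
    rw [hm]
    exact max_lt hV0 hW0
  have hVm : lenV V ≤ m := by rw [hm]; exact le_max_left _ _
  have hWm : lenV W ≤ m := by rw [hm]; exact le_max_right _ _
  have hnn : ∀ y, 0 ≤ y → 0 ≤ D y * P.eval y := by
    intro y hy
    have h5 := h4 y hy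
    have h6 := ltr_bound true ((b, s) :: W) y
    rw [hD]
    simp only
    rcases ltr_zero_or true ((a, r) :: V) y with h7 | h7
    · rw [h7] at h5 ⊢
      have h8 : P.eval y ≤ 0 := by linarith
      nlinarith
    · rw [h7] at h5 ⊢
      have h8 : 0 ≤ P.eval y := by linarith
      nlinarith
  have hsplit : (∫ y in (0 : ℝ)..m, D y * P.eval y) + ∫ y in m..n, D y * P.eval y = 0 := by
    rw [intervalIntegral.integral_add_adjacent_intervals
      (bdd_integrable hDm hDb hPc _ _) (bdd_integrable hDm hDb hPc _ _), horth]
  have i1 : 0 ≤ ∫ y in (0 : ℝ)..m, D y * P.eval y :=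
    intervalIntegral.integral_nonneg hm0 (fun y hy => hnn y hy.1)
  have hsg : (if a = true then (1 : ℝ) else 0) - (if b = true then 1 else 0) = sgb a := by
    cases a <;> cases b <;> simp_all [sgb]
  have i2 : ∫ y in m..n, D y * P.eval y = ∫ y in m..n, sgb a * P.eval y := by
    apply intervalIntegral.integral_congr_Ioo_of_le hmn.le
    intro y hy
    have g1 : ¬ y < lenV V := by
      have := hy.1
      linarith
    have g2 : ¬ y < lenV W := by
      have := hy.1
      linarith
    rw [hD]
    simp only
    rw [ltr_cons, ltr_cons, if_neg g1, if_neg g2, hsg]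
  have i3 : 0 < ∫ y in m..n, sgb a * P.eval y := by
    apply intervalIntegral.integral_pos hmn (by fun_prop)
    · intro y hy
      exact (h3 y (lt_of_le_of_lt hVm hy.1)).le
    · exact ⟨n, ⟨hmn.le, le_rfl⟩, h3 n hV0⟩
  rw [i2] at hsplit
  linarith

lemma rocc_strip (a : Bool) (r s : ℝ) (V W : List (Bool × ℝ)) {t : ℕ}
    (h : ∀ u : List Bool, u.length ≤ t → rocc ((a, r) :: V) u = rocc ((a, s) :: W) u) (q : ℝ) :
    ∀ u : List Bool, u.length ≤ t →
      st a u (gbin (r - q)) (rocc V) = st a u (gbin (s - q)) (rocc W) := by
  intro u hu
  have e : ∀ (r : ℝ) (V : List (Bool × ℝ)), st a u (gbin (r - q)) (rocc V) =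
      st a u (gbin (-q)) (rocc ((a, r) :: V)) := by
    intro r V
    have : rocc ((a, r) :: V) = fun v => st a v (gbin r) (rocc V) := by
      funext v; rw [rocc_cons]
    rw [this, st_st, conv_gbinR]
    congr 2
    ring
  rw [e, e]
  apply st_congr
  intro v hv
  exact h v (by omega)

lemma st_gbin_zero (a : Bool) (u : List Bool) (F : List Bool → ℝ) :
    st a u (gbin (0 : ℝ)) F = F u := st_one _ _ _ (gbin_zero _) gbin_zero_succ u

/-- **Run words with at most `t` runs are determined by their counts up to the length `t`.** -/
theorem few_real {t : ℕ} (ht : 1 ≤ t) : ∀ (N : ℕ) (V W : List (Bool × ℝ)),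
    V.length + W.length ≤ N → V.length ≤ t → (∀ p ∈ V, 0 < p.2) → (∀ p ∈ W, 0 < p.2) →
    V.IsChain (fun p q => p.1 ≠ q.1) → W.IsChain (fun p q => p.1 ≠ q.1) →
    (∀ u : List Bool, u.length ≤ t → rocc V u = rocc W u) → V = W := by
  intro N
  induction N with
  | zero =>
    intro V W hN _ _ _ _ _ _
    have h1 : V = [] := List.length_eq_zero_iff.mp (by omega)
    have h2 : W = [] := List.length_eq_zero_iff.mp (by omega)
    rw [h1, h2]
  | succ N ih =>
    intro V W hN hVt hV hW hVc hWc h
    have hlen := len_eq_of_rocc ht h
    cases V with
    | nil =>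
      cases W with
      | nil => rfl
      | cons q W =>
        exfalso
        rw [lenV_nil, lenV_cons] at hlen
        have h1 := hW q (by simp)
        have h2 := lenV_nonneg W (fun p hp => (hW p (List.mem_cons_of_mem _ hp)).le)
        linarith
    | cons p V =>
      cases W with
      | nil =>
        exfalso
        rw [lenV_nil, lenV_cons] at hlen
        have h1 := hV p (by simp)
        have h2 := lenV_nonneg V (fun p hp => (hV p (List.mem_cons_of_mem _ hp)).le)
        linarith
      | cons q W =>
        obtain ⟨a, r⟩ := p
        obtain ⟨b, s⟩ := q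
        simp only [List.length_cons] at hN hVt
        by_cases hab : a = b
        · subst hab
          have hVp : ∀ p ∈ V, 0 < p.2 := fun p hp => hV p (List.mem_cons_of_mem _ hp)
          have hWp : ∀ p ∈ W, 0 < p.2 := fun p hp => hW p (List.mem_cons_of_mem _ hp)
          have hVc' : V.IsChain (fun p q => p.1 ≠ q.1) := hVc.tail
          have hWc' : W.IsChain (fun p q => p.1 ≠ q.1) := hWc.tail
          rcases lt_trichotomy r s with hrs | hrs | hrs
          · exfalso
            have h1 := rocc_strip a r s V W h r
            have h2 : V = (a, s - r) :: W := by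
              apply ih V ((a, s - r) :: W) (by simp only [List.length_cons]; omega) (by omega) hVp
              · intro p hp
                rw [List.mem_cons] at hp
                rcases hp with rfl | hp
                · exact sub_pos.mpr hrs
                · exact hWp p hp
              · exact hVc'
              · cases W with
                | nil => exact List.isChain_singleton _
                | cons q W =>
                  rw [List.isChain_cons_cons] at hWc ⊢
                  exact hWc
              · intro u hu
                have := h1 u hu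
                rw [sub_self, st_gbin_zero] at this
                rw [this, rocc_cons]
            rw [h2, List.isChain_cons_cons] at hVc
            exact hVc.1 rfl
          · subst hrs
            have h1 := rocc_strip a r r V W h r
            have h2 : V = W := by
              apply ih V W (by omega) (by omega) hVp hWp hVc' hWc'
              intro u hu
              have := h1 u hu
              rwa [sub_self, st_gbin_zero, st_gbin_zero] at this
            rw [h2]
          · exfalso
            have h1 := rocc_strip a r s V W h s
            have h2 : (a, r - s) :: V = W := by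
              apply ih ((a, r - s) :: V) W (by simp only [List.length_cons]; omega)
                (by simp only [List.length_cons]; omega) ?_ hWp ?_ hWc' ?_
              · intro p hp
                rw [List.mem_cons] at hp
                rcases hp with rfl | hp
                · exact sub_pos.mpr hrs
                · exact hVp p hp
              · cases V with
                | nil => exact List.isChain_singleton _
                | cons q V =>
                  rw [List.isChain_cons_cons] at hVc ⊢
                  exact hVc
              · intro u hu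
                have := h1 u hu
                rw [sub_self, st_gbin_zero] at this
                rw [← this, rocc_cons]
            rw [← h2, List.isChain_cons_cons] at hWc
            exact hWc.1 rfl
        · exfalso
          exact heads_ne hV hW hVc hVt hab h

end real

end Pool.Agent.Work.MP_02e323_rr
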