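import Mathlib
import Pool.Agent.Work.MP_02e323_xi.Main2
import Pool.Agent.Work.MP_02e323_rr.Expl

/-!
# Exact values for `t ≤ 5`
-/

set_option autoImplicit false

open Finset

namespace Pool.Agent.Work.MP_02e323_rr

open Pool.Agent.Work.MP_02e323_helper29 (occ occ_nil occ_cons_nil occ_cons_cons)
open Pool.Agent.Work.MP_02e323_helper33
open Pool.Agent.Work.MP_02e323_xi (isPol_eval length_eq)

section pairs

variable {α : Type*} [DecidableEq α]

/-- Counts of all suffixes of `u`: one more letter `d` at the left end of the word. -/
def upd (d : α) : List α → List ℕ → List ℕ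
  | c :: u, x :: y :: r => (x + if c = d then y else 0) :: upd d u (y :: r)
  | _, v => v

/-- Counts of all suffixes of `u` in a word. -/
def vec (u : List α) : List α → List ℕ
  | [] => List.replicate u.length 0 ++ [1]
  | d :: w => upd d u (vec u w)

lemma upd_tails (d : α) (w : List α) : ∀ u : List α,
    upd d u (u.tails.map (fun v => occ v w)) = u.tails.map (fun v => occ v (d :: w))
  | [] => by simp [upd, occ_nil]
  | [c] => by simp [upd, occ_nil, occ_cons_cons]
  | c :: e :: u => by
    have h := upd_tails d w (e :: u)
    have e1 : (c :: e :: u).tails = (c :: e :: u) :: (e :: u) :: u.tails := by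
      rw [List.tails_cons, List.tails_cons]
    have e2 : (e :: u).tails = (e :: u) :: u.tails := by rw [List.tails_cons]
    rw [e2, List.map_cons, List.map_cons] at h
    rw [e1, List.map_cons, List.map_cons, List.map_cons, List.map_cons, upd, occ_cons_cons, h]

lemma vec_eq (u : List α) : ∀ w : List α, vec u w = u.tails.map (fun v => occ v w)
  | [] => by
    rw [vec]
    induction u with
    | nil => simp [occ_nil]
    | cons c u ih =>
      rw [List.tails_cons, List.map_cons, ← ih, occ_cons_nil, List.length_cons,
        List.replicate_succ, List.cons_append]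
  | d :: w => by
    rw [vec, vec_eq u w, upd_tails]

/-- The words of length `k` over `{true, false}`. -/
def wds : ℕ → List (List Bool)
  | 0 => [[]]
  | k + 1 => (wds k).map (true :: ·) ++ (wds k).map (false :: ·)

lemma mem_wds : ∀ (k : ℕ) (u : List Bool), u.length = k → u ∈ wds k
  | 0, u, h => by
    rw [List.length_eq_zero_iff.mp h]
    simp [wds]
  | k + 1, [], h => by simp at h
  | k + 1, c :: u, h => by
    have := mem_wds k u (by simpa using h)
    rw [wds, List.mem_append]
    cases c
    · exact Or.inr (List.mem_map.mpr ⟨u, this, rfl⟩)
    · exact Or.inl (List.mem_map.mpr ⟨u, this, rfl⟩)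

lemma occ_eq_of_vec {t : ℕ} {V W : List Bool} (h : ∀ u ∈ wds t, vec u V = vec u W)
    (u : List Bool) (hu : u.length ≤ t) : occ u V = occ u W := by
  have h1 := h (List.replicate (t - u.length) true ++ u) (mem_wds _ _ (by
    rw [List.length_append, List.length_replicate]
    omega))
  rw [vec_eq, vec_eq] at h1
  have h2 : u ∈ (List.replicate (t - u.length) true ++ u).tails := by
    rw [List.mem_tails]
    exact List.suffix_append _ _
  exact List.map_inj_left.mp h1 u h2

/-- Counts in the image of a binary word. -/
lemma occ_map (f : Bool → α) (hf : Function.Injective f) : ∀ (w : List Bool) (u : List α),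
    (∀ u' : List Bool, u = u'.map f → occ u (w.map f) = occ u' w) ∧
      ((¬ ∃ u' : List Bool, u = u'.map f) → occ u (w.map f) = 0)
  | [], u => by
    constructor
    · rintro u' rfl
      cases u' with
      | nil => simp [occ_nil]
      | cons c u' => simp [occ_cons_nil]
    · intro h
      cases u with
      | nil => exact absurd ⟨[], rfl⟩ h
      | cons c u => simp [occ_cons_nil]
  | d :: w, u => by
    constructor
    · rintro u' rfl
      cases u' with
      | nil => simp [occ_nil]
      | cons c u' =>
        rw [List.map_cons, List.map_cons, occ_cons_cons, occ_cons_cons]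
        have h1 := (occ_map f hf w (f c :: u'.map f)).1 (c :: u') rfl
        have h2 := (occ_map f hf w (u'.map f)).1 u' rfl
        rw [h1, h2]
        by_cases hcd : c = d
        · rw [if_pos hcd, if_pos (by rw [hcd])]
        · rw [if_neg hcd, if_neg (fun h => hcd (hf h))]
    · intro h
      cases u with
      | nil => exact absurd ⟨[], rfl⟩ h
      | cons c u =>
        rw [List.map_cons, occ_cons_cons, (occ_map f hf w (c :: u)).2 h, zero_add]
        split_ifs with hcd
        · apply (occ_map f hf w u).2
          rintro ⟨u', rfl⟩
          exact h ⟨d :: u', by rw [List.map_cons, hcd]⟩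
        · rfl

/-- Transport of a binary pair to an alphabet with two different letters. -/
lemma transport {t : ℕ} {V W : List Bool} (h : ∀ u ∈ wds t, vec u V = vec u W) (hVW : V ≠ W)
    (a b : α) (hab : a ≠ b) : ∃ w w' : List α, w.length = V.length ∧ w'.length = W.length ∧
      w ≠ w' ∧ ∀ u : List α, u.length ≤ t → occ u w = occ u w' := by
  obtain ⟨f, hf⟩ : ∃ f : Bool → α, f = fun c => if c = true then a else b := ⟨_, rfl⟩
  have hinj : Function.Injective f := by
    intro c d hcd
    rw [hf] at hcd
    cases c <;> cases d <;> simp_all
  refine ⟨V.map f, W.map f, by simp, by simp, ?_, ?_⟩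
  · intro he
    exact hVW (List.map_injective_iff.mpr hinj he)
  · intro u hu
    by_cases hu' : ∃ u' : List Bool, u = u'.map f
    · obtain ⟨u', rfl⟩ := hu'
      rw [(occ_map f hinj V _).1 u' rfl, (occ_map f hinj W _).1 u' rfl]
      exact occ_eq_of_vec h u' (by simpa using hu)
    · rw [(occ_map f hinj V u).2 hu', (occ_map f hinj W u).2 hu']

end pairs

section four

variable {α : Type*}

open Classical in
/-- Indicator of the letter `a`. -/
noncomputable def ind (a : α) (o : Option α) : ℤ := if o = some a then 1 else 0

lemma ind_val (a : α) (o : Option α) : ind a o = 0 ∨ ind a o = 1 := by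
  unfold ind
  split_ifs
  · exact Or.inr rfl
  · exact Or.inl rfl

lemma J_eq_sum (a : α) (g : ℕ → ℝ) : ∀ (x : List α) (n : ℕ), x.length ≤ n →
    J a (fun v : List α => g v.length) x =
      ∑ j ∈ range n, (ind a (x.reverse[j]?) : ℝ) * g j
  | [], n, _ => by
    rw [J_nil]
    symm
    apply sum_eq_zero
    intro j _
    simp [ind]
  | c :: x, n, hn => by
    classical
    rw [List.length_cons] at hn
    rw [J_cons, J_eq_sum a g x n (by omega)]
    have e : ∀ j : ℕ, (ind a ((c :: x).reverse[j]?) : ℝ) * g j =
        (ind a (x.reverse[j]?) : ℝ) * g j + if j = x.length then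
          (if c = a then g x.length else 0) else 0 := by
      intro j
      rw [List.reverse_cons]
      rcases lt_trichotomy j x.length with h | h | h
      · rw [List.getElem?_append_left (by simpa using h), if_neg (by omega), add_zero]
      · rw [List.getElem?_append_right (by simp [h]), if_pos h, h]
        simp only [List.length_reverse, Nat.sub_self, List.getElem?_cons_zero]
        have : x.reverse[x.length]? = none := by simp
        rw [this]
        simp only [ind, Option.some.injEq, reduceCtorEq, if_false]
        split_ifs <;> simp
      · have h1 : (x.reverse ++ [c])[j]? = none := by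
          rw [List.getElem?_eq_none_iff]
          simp
          omega
        have h2 : x.reverse[j]? = none := by
          rw [List.getElem?_eq_none_iff]
          simp
          omega
        rw [h1, h2, if_neg (by omega), add_zero]
    rw [sum_congr rfl (fun j _ => e j), sum_add_distrib]
    congr 1
    rw [sum_ite_eq' (range n) x.length, if_pos (mem_range.mpr (by omega))]

lemma J_append (a : α) (f : List α → ℝ) (y : List α) : ∀ x : List α,
    J a f (x ++ y) = J a (fun v => f (v ++ y)) x + J a f y
  | [] => by simp [J_nil]
  | c :: x => by
    classical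
    rw [List.cons_append, J_cons, J_cons, J_append a f y x]
    ring

lemma last_diff {α : Type*} : ∀ (w w' : List α), w.length = w'.length → w ≠ w' →
    ∃ (x x' : List α) (a b : α) (s : List α), w = x ++ a :: s ∧ w' = x' ++ b :: s ∧ a ≠ b ∧
      x.length = x'.length
  | [], w', hl, hne => by
    exfalso
    apply hne
    exact (List.length_eq_zero_iff.mp (by simpa using hl.symm)).symm
  | c :: w, [], hl, _ => by simp at hl
  | c :: w, c' :: w', hl, hne => by
    have hl' : w.length = w'.length := by simpa using hl
    by_cases h : w = w'
    · subst h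
      refine ⟨[], [], c, c', w, rfl, rfl, ?_, rfl⟩
      rintro rfl
      exact hne rfl
    · obtain ⟨x, x', a, b, s, h1, h2, h3, h4⟩ := last_diff w w' hl' h
      exact ⟨c :: x, c' :: x', a, b, s, by rw [h1]; rfl, by rw [h2]; rfl, h3, by simp [h4]⟩

/-- Two different words with the same spectra give a solution of the moment equations in
`{-1, 0, 1}`. -/
theorem exists_int_moment [Fintype α] {t : ℕ} (ht : 1 ≤ t) (w w' : List α)
    (hne : w ≠ w') (h : ∀ u : List α, u.length ≤ t → occ u w = occ u w') :
    ∃ d : ℕ → ℤ, d 0 = 1 ∧ (∀ j, d j = -1 ∨ d j = 0 ∨ d j = 1) ∧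
      ∀ p : Polynomial ℝ, p.natDegree < t →
        ∑ j ∈ range w.length, (d j : ℝ) * p.eval (j : ℝ) = 0 := by
  classical
  have hl := length_eq ht w w' h
  obtain ⟨x, x', a, b, s, h1, h2, hab, hx⟩ := last_diff w w' hl hne
  refine ⟨fun j => match j with
    | 0 => 1
    | j + 1 => ind a (x.reverse[j]?) - ind a (x'.reverse[j]?), rfl, ?_, ?_⟩
  · intro j
    cases j with
    | zero => exact Or.inr (Or.inr rfl)
    | succ j =>
      simp only
      rcases ind_val a (x.reverse[j]?) with e | e <;> rcases ind_val a (x'.reverse[j]?) with e' | e' <;>
        rw [e, e'] <;> norm_num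
  · intro p hp
    obtain ⟨g, hg⟩ : ∃ g : Polynomial ℝ,
      g = p.comp (Polynomial.X - Polynomial.C (s.length : ℝ)) := ⟨_, rfl⟩
    have hgd : g.natDegree ≤ t - 1 := by
      rw [hg, Polynomial.natDegree_comp, Polynomial.natDegree_X_sub_C, mul_one]
      omega
    have hge : ∀ y : ℝ, g.eval y = p.eval (y - s.length) := by
      intro y; rw [hg]; simp
    have hpol : IsPol t (J a (fun w : List α => g.eval ((w.length : ℕ) : ℝ))) := by
      have := isPol_J (isPol_eval (α := α) g hgd) a
      exact this.mono (by omega)
    have heq := pol_eq_of_occ (R := ℝ) (w := w) (w' := w') (t := t)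
      (fun u hu => by rw [h u hu]) _ hpol
    have hlen : w.length = x.length + 1 + s.length := by
      rw [h1, List.length_append, List.length_cons]
      ring
    have key : ∀ (y : List α) (c : α), y.length = x.length →
        J a (fun w : List α => g.eval ((w.length : ℕ) : ℝ)) (y ++ c :: s) =
          (∑ j ∈ range (x.length + s.length), (ind a (y.reverse[j]?) : ℝ) *
            p.eval (((j + 1 : ℕ) : ℝ))) +
          (J a (fun w : List α => g.eval ((w.length : ℕ) : ℝ)) s +
            if c = a then p.eval 0 else 0) := by
      intro y c hy
      rw [J_append, J_cons]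
      have e1 : (fun v : List α => g.eval (((v ++ c :: s).length : ℕ) : ℝ)) =
          fun v : List α => (fun k : ℕ => p.eval (((k + 1 : ℕ) : ℝ))) v.length := by
        funext v
        rw [hge, List.length_append, List.length_cons]
        congr 1
        push_cast
        ring
      rw [e1, J_eq_sum a (fun k : ℕ => p.eval (((k + 1 : ℕ) : ℝ))) y (x.length + s.length)
        (by omega), hge, sub_self]
    rw [h1, h2, key x a rfl, key x' b hx.symm, if_pos rfl, if_neg (fun h => hab h.symm),
      add_zero] at heq
    rw [hlen, show x.length + 1 + s.length = (x.length + s.length) + 1 by ring,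
      sum_range_succ']
    simp only [Int.cast_sub, Int.cast_one, Nat.cast_zero, one_mul, sub_mul, sum_sub_distrib]
    linarith

/-- Words of length `11` are determined by their full `4`-spectra. -/
theorem det_four [Fintype α] (w w' : List α) (hw : w.length = 11)
    (h : ∀ u : List α, u.length ≤ 4 → occ u w = occ u w') : w = w' := by
  by_contra hne
  obtain ⟨d, h0, h1, h2⟩ := exists_int_moment (by norm_num) w w' hne h
  have h3 := h2 ((Polynomial.C 3 - Polynomial.X) * (Polynomial.C 7 - Polynomial.X) *
    (Polynomial.C 9 - Polynomial.X)) (by
      refine lt_of_le_of_lt (b := 3) ?_ (by norm_num)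
      compute_degree)
  rw [hw] at h3
  simp only [sum_range_succ, range_zero, sum_empty, h0] at h3
  norm_num at h3
  have h4 : 189 + d 1 * 96 + d 2 * 35 - d 4 * 15 - d 5 * 16 - d 6 * 9 + d 8 * 5 - d 10 * 21 =
      (0 : ℤ) := by
    have h5 : (189 : ℝ) + d 1 * 96 + d 2 * 35 - d 4 * 15 - d 5 * 16 - d 6 * 9 + d 8 * 5 -
        d 10 * 21 = 0 := by linarith
    exact_mod_cast h5
  have hb : ∀ j, -1 ≤ d j ∧ d j ≤ 1 := by
    intro j
    rcases h1 j with e | e | e <;> omega
  have b1 := hb 1
  have b2 := hb 2
  have b4 := hb 4
  have b5 := hb 5
  have b6 := hb 6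
  have b8 := hb 8
  have b10 := hb 10
  have e1 : d 1 = -1 := by omega
  have e2 : d 2 = -1 := by omega
  have e10 : d 10 = 1 := by omega
  have e5 : d 5 = 1 := by omega
  have e4 : d 4 = 1 := by omega
  have e6 : d 6 = 1 := by omega
  omega

/-- Words of length at most `15` are determined by their full `5`-spectra. -/
theorem det_five [Fintype α] (w w' : List α) (hw : w.length ≤ 15)
    (h : ∀ u : List α, u.length ≤ 5 → occ u w = occ u w') : w = w' := by
  refine Work.MP_02e323_xi.det_of_not_moment (t := 5) (n := 15) (by norm_num) (by norm_num)
    (Work.MP_02e323_xi.not_moment (by norm_num) ((Polynomial.C 3 - Polynomial.X) *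
      (Polynomial.C 7 - Polynomial.X) * (Polynomial.C 11 - Polynomial.X) *
      (Polynomial.C 14 - Polynomial.X)) ?_ ?_) w w' hw h
  · refine lt_of_le_of_lt (b := 4) ?_ (by norm_num)
    compute_degree
  · rw [Finset.sum_Ico_eq_sum_range]
    simp only [sum_range_succ, range_zero, sum_empty]
    norm_num

end four

section check

lemma pair1 : ∀ u ∈ wds 1, vec u [true, false] = vec u [false, true] := by decide

lemma pair2 : ∀ u ∈ wds 2, vec u [true, false, false, true] = vec u [false, true, true, false] := by
  decide

lemma pair3 : ∀ u ∈ wds 3, vec u [true, false, false, true, true, true, false] =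
    vec u [false, true, true, true, false, false, true] := by decide

lemma pair4 : ∀ u ∈ wds 4, vec u [true, false, false, true, true, true, false, true, true, false,
      false, true] =
    vec u [false, true, true, true, false, true, false, false, true, true, true, false] := by decide

lemma pair5 : ∀ u ∈ wds 5, vec u [true, false, false, true, true, true, true, true, false, false,
      false, true, true, true, true, false] =
    vec u [false, true, true, true, true, false, false, false, true, true, true, true, true, false,
      false, true] := by decide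

end check

end Pool.Agent.Work.MP_02e323_rr
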